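import Pool.Agent.P.MP_a0f0ad_al.Fi.Z.Defs

/-! Chapter W: word length against the limit length. -/

namespace Pool.Agent.P.MP_a0f0ad_al.Fi

open Finset MeasureTheory

-- deps:
/-- the group is finitely generated and nilpotent -/
def S_GRP : Prop := ∀ d : ℕ, Group.FG (G d) ∧ Group.IsNilpotent (G d)

-- deps: FO
/-- the exact accounting of the length of a word against a feasible dual polynomial -/
def S_ACC : Prop :=
  ∀ (d : ℕ) (S : Finset (G d)) (D : LD d) (L : ℝ), D.Spec S → ∃ C : ℝ,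
    ∀ (T : ℝ) (w : List (G d)) (q : Fin d → ℝ) (τ1 τ2 : ℕ), 1 ≤ T → Wd S w →
      (w.length : ℝ) ≤ L * T → 0 ≤ w.prod.a → τ1 ≤ w.length → τ2 ≤ w.length →
      (∀ k ≤ w.length, ht w τ1 ≤ ht w k ∧ ht w k ≤ ht w τ2) →
      D.Feas q (ht w τ1 / T) (ht w τ2 / T) →
      |CT T q w| ≤ C * ‖q‖ ∧
      (τ1 ≤ τ2 → 0 ≤ SB D T q w τ1 τ2 ∧
        |(w.length : ℝ) - T * D.Bf q (ht w τ1 / T) (ht w τ2 / T) (T⁻¹ • nx T w.prod) -
          SB D T q w τ1 τ2 + CT T q w| ≤ C * ‖q‖ / T) ∧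
      (τ2 ≤ τ1 → T * D.Bf q (ht w τ1 / T) (ht w τ2 / T) (T⁻¹ • nx T w.prod) +
        T * (∫ x in (0 : ℝ)..(w.prod.a / T), D.om (ev q 0 x)) - C * ‖q‖ ≤ w.length)

-- deps: FO GRW MARK PEN HOM ATT APR ACC
/-- word length and limit length differ by a bounded amount -/
def S_H2N : Prop :=
  ∀ (d : ℕ) (S : Finset (G d)) (D : LD d) (L : ℝ), 2 ≤ d → D.Spec S → ∃ C : ℝ, 0 < C ∧
    ∀ u : E d, 0 ≤ u.1 → ‖u‖ ≤ L → 0 < ell u → ∀ T : ℝ, 1 ≤ T → ∀ g : G d,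
      |(len S g : ℝ) - T * D.NN u| ≤ C / ell u ^ d * (1 + ‖nx T g - T • u‖)

-- deps: H2N
/-- the limit length is Lipschitz away from the axis -/
def S_LIP : Prop :=
  ∀ (d : ℕ) (S : Finset (G d)) (D : LD d) (L : ℝ), 2 ≤ d → D.Spec S → ∃ C : ℝ, 0 < C ∧
    ∀ u u' : E d, 0 ≤ u.1 → ‖u‖ ≤ L → 0 < ell u → 0 ≤ u'.1 → ‖u'‖ ≤ L → 0 < ell u' →
      |D.NN u' - D.NN u| ≤ C / ell u ^ d * ‖u' - u‖

-- deps: HOM H2N LIP
/-- the affine approximation of word length on a window -/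
def S_FB : Prop :=
  ∀ (d : ℕ) (S : Finset (G d)) (D : LD d), 2 ≤ d → D.Spec S → ∃ C : ℝ, 0 < C ∧
    ∀ (T r e : ℝ) (u p : E d) (g : G d), 1 ≤ T → 0 < u.1 → D.NN u ≤ 1 → Grad D.NN p u →
      Osc D.NN u p r e → ‖nx T g - T • u‖ ≤ T * r → e * ‖nx T g - T • u‖ ≤ 1 →
      C * r ≤ u.1 → C * r ≤ ell u ^ d →
      ‖p‖ ≤ C / ell u ^ d ∧ |Fb T (D.NN u) u p (len S g) g| ≤ C / ell u ^ d

end Pool.Agent.P.MP_a0f0ad_al.Fi
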