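import Pool.Agent.P.MP_a0f0ad_al.Fi.W.Iface2
import Pool.Agent.P.MP_a0f0ad_al.Fi.Z.Bl

/-! Step WACC of the filiform project. -/

namespace Pool.Agent.P.MP_a0f0ad_al.Fi

open Finset MeasureTheory

namespace WaccA

theorem three (F : Bool → ℕ → ℝ) (up : ℕ → Bool) (b c : Bool) {s t n : ℕ} (hs : s ≤ t)
    (hn : t ≤ n) (h1 : ∀ k, s ≤ k → k < t → up k = b) (h2 : ∀ k, k < s ∨ t ≤ k → up k = c) :
    ∑ k ∈ range n, (F (up k) (k + 1) - F (up k) k) =
      F c s - F c 0 + (F b t - F b s) + (F c n - F c t) := by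
  rw [range_eq_Ico, ← sum_Ico_consecutive _ (Nat.zero_le t) hn,
    ← sum_Ico_consecutive _ (Nat.zero_le s) hs, ← sum_Ico_sub (F c) (Nat.zero_le s),
    ← sum_Ico_sub (F b) hs, ← sum_Ico_sub (F c) hn]
  congr 1
  · congr 1
    · exact sum_congr rfl fun k hk => by rw [h2 k (Or.inl (mem_Ico.1 hk).2)]
    · exact sum_congr rfl fun k hk => by rw [h1 k (mem_Ico.1 hk).1 (mem_Ico.1 hk).2]
  · exact sum_congr rfl fun k hk => by rw [h2 k (Or.inr (mem_Ico.1 hk).1)]

theorem prim {f : ℝ → ℝ} (hf : Continuous f) (s t : ℝ) :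
    ∫ x in s..t, f x = (∫ x in (0 : ℝ)..t, f x) - ∫ x in (0 : ℝ)..s, f x :=
  (intervalIntegral.integral_interval_sub_left (hf.intervalIntegrable _ _)
    (hf.intervalIntegrable _ _)).symm

theorem nonneg {d : ℕ} {S : Finset (G d)} {D : LD d} (hD : D.Spec S) {T : ℝ} (hT : 0 < T)
    {w : List (G d)} (hw : Wd S w) {q : Fin d → ℝ} {lo hi : ℤ}
    (h : ∀ k ≤ w.length, lo ≤ ht w k ∧ ht w k ≤ hi) (hq : D.Feas q (lo / T) (hi / T))
    (up : ℕ → Bool) : 0 ≤ ∑ k ∈ range w.length, sbg D T q w up k := by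
  refine sum_nonneg fun k hk => intervalIntegral.integral_nonneg zero_le_one fun t ht' =>
    hD.slk_nn _ (hw.lt_mem (mem_range.1 hk)) (hq _ ?_)
  have a := h k (mem_range.1 hk).le
  have b := h (k + 1) (mem_range.1 hk)
  rw [ht_succ] at b
  have a1 : (lo : ℝ) ≤ ht w k := by exact_mod_cast a.1
  have a2 : (ht w k : ℝ) ≤ hi := by exact_mod_cast a.2
  have b1 : (lo : ℝ) ≤ ht w k + (lt w k).a := by exact_mod_cast b.1
  have b2 : (ht w k : ℝ) + (lt w k).a ≤ hi := by exact_mod_cast b.2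
  exact ⟨div_le_div_of_nonneg_right (by nlinarith [ht'.1, ht'.2]) hT.le,
    div_le_div_of_nonneg_right (by nlinarith [ht'.1, ht'.2]) hT.le⟩

end WaccA

open WaccA in
theorem p_WACC (hWSBG : S_WSBG) :
    S_WACC := by
  intro d S D L hD
  obtain ⟨C, C0, hC⟩ := hWSBG d S D L hD
  refine ⟨2 * C, fun T w q τ1 τ2 hT hw hL _ h1 h2 hr hq => ?_⟩
  have T0 : 0 < T := by linarith
  have Cq : 0 ≤ C * ‖q‖ := by positivity
  have CT' : C * ‖q‖ / T ≤ C * ‖q‖ := div_le_self Cq hT
  have cP : Continuous fun x => D.lp (ev q 0 x) := hD.continuous_lp.comp (continuous_ev q 0)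
  have cN : Continuous fun x => D.lp (-ev q 0 x) := hD.continuous_lp.comp (continuous_ev q 0).neg
  set F : Bool → ℕ → ℝ := fun b k => ∫ x in (0 : ℝ)..((ht w k : ℝ) / T), D.lam b (ev q 0 x)
    with hF
  have F0 : ∀ b, F b 0 = 0 := fun b => by simp [hF]
  have hs : ∀ up : ℕ → Bool, ∑ k ∈ range w.length,
      ∫ x in ((ht w k : ℝ) / T)..((ht w (k + 1) : ℝ) / T), D.lam (up k) (ev q 0 x) =
      ∑ k ∈ range w.length, (F (up k) (k + 1) - F (up k) k) := fun up =>
    sum_congr rfl fun k _ => prim ((hD.continuous_lam _).comp (continuous_ev q 0)) _ _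
  have Ft : ∀ k, F true k = ∫ x in (0 : ℝ)..((ht w k : ℝ) / T), D.lp (ev q 0 x) := fun k => rfl
  have Ff : ∀ k, F false k = -∫ x in (0 : ℝ)..((ht w k : ℝ) / T), D.lp (-ev q 0 x) := fun k =>
    intervalIntegral.integral_neg
  have hB : T * D.Bf q (ht w τ1 / T) (ht w τ2 / T) (T⁻¹ • nx T w.prod) =
      dot q (nx T w.prod).2 + T * (F true τ2 - F true τ1 + F false τ1 +
        (F false w.length - F false τ2)) := by
    have e : (T⁻¹ • nx T w.prod).1 = (ht w w.length : ℝ) / T := by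
      rw [ht_length, div_eq_inv_mul]; rfl
    rw [LD.Bf, e, Prod.smul_snd, dot_smul_right, prim cP, prim cN (_ / T) 0,
      prim cN (_ / T) (_ / T), Ft, Ft, Ff, Ff, Ff, intervalIntegral.integral_same]
    field_simp
    ring
  have hO : ∫ x in (0 : ℝ)..(w.prod.a / T), D.om (ev q 0 x) =
      F true w.length - F false w.length := by
    rw [Ft, Ff, ht_length, sub_neg_eq_add]
    exact intervalIntegral.integral_add (cP.intervalIntegrable _ _) (cN.intervalIntegrable _ _)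
  refine ⟨(hC T w q (fun _ => true) hT hw hL).1.trans (by linarith), fun h => ?_, fun h => ?_⟩
  · have a := (hC T w q (fun k => decide (τ1 ≤ k ∧ k < τ2)) hT hw hL).2
    rw [hs, three F _ true false h h2 (fun k a b => decide_eq_true ⟨a, b⟩)
      (fun k a => decide_eq_false (by omega)), F0] at a
    refine ⟨nonneg hD T0 hw hr hq fun k => decide (τ1 ≤ k ∧ k < τ2), le_trans (le_of_eq ?_)
      (a.trans (div_le_div_of_nonneg_right (by linarith) T0.le))⟩
    rw [hB]
    congr 1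
    have e : SB D T q w τ1 τ2 =
      ∑ k ∈ range w.length, sbg D T q w (fun k => decide (τ1 ≤ k ∧ k < τ2)) k := rfl
    rw [e]
    ring
  · obtain ⟨b, a⟩ := hC T w q (fun k => !decide (τ2 ≤ k ∧ k < τ1)) hT hw hL
    rw [hs, three F _ false true h h1 (fun k a b => by simp [a, b])
      (fun k a => by simp only [Bool.not_eq_true', decide_eq_false_iff_not]; omega), F0] at a
    have c := nonneg hD T0 hw hr hq fun k => !decide (τ2 ≤ k ∧ k < τ1)
    rw [hB, hO]
    linarith [(abs_le.1 a).1, (abs_le.1 b).2]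

end Pool.Agent.P.MP_a0f0ad_al.Fi
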