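import Pool.Agent.P.MP_a0f0ad_al.Fi.W.Wsbg
import Pool.Agent.P.MP_a0f0ad_al.Fi.W.Wacc

/-! Step ACC of the filiform project. -/

namespace Pool.Agent.P.MP_a0f0ad_al.Fi

theorem p_ACC (hFO : S_FO) :
    S_ACC := p_WACC (p_WSBG hFO)

end Pool.Agent.P.MP_a0f0ad_al.Fi
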