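import Pool.Agent.P.MP_a0f0ad_al.Fi.W.Iface2
import Pool.Agent.P.MP_a0f0ad_al.Fi.V.Iface
import Pool.Agent.P.MP_a0f0ad_al.Fi.W.Iface

/-! Step WFB of the filiform project. -/

namespace Pool.Agent.P.MP_a0f0ad_al.Fi

open Finset MeasureTheory

namespace WfbA

theorem norm_grad {d : ℕ} {N : E d → ℝ} {p u : E d} {c : ℝ} (hc : 0 ≤ c) (h : Grad N p u)
    (k : ∀ᶠ u' in nhds u, |N u' - N u| ≤ c * ‖u' - u‖) : ‖p‖ ≤ c := by
  obtain ⟨A, hA, e⟩ := h
  have h1 : ‖A‖ ≤ c := hA.le_of_lip' hc k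
  have h2 : ∀ v : E d, ‖v‖ ≤ 1 → |pair p v| ≤ c := fun v hv => by
    rw [← e]
    exact (A.le_of_opNorm_le_of_le h1 hv).trans_eq (mul_one c)
  refine norm_prod_le_iff.2 ⟨?_, (pi_norm_le_iff_of_nonneg hc).2 fun j => ?_⟩
  · simpa [pair] using h2 (1, 0) (by simp)
  · have := h2 (0, Pi.single j 1) (by simp [Pi.norm_single])
    rwa [pair, dot_comm, dot_single_left, mul_zero, zero_add] at this

end WfbA

theorem p_WFB (hHOM : S_HOM) (hH2N : S_H2N) (hLIP : S_LIP) (hWELL : S_WELL) :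
    S_WFB := by
  intro d S D hd hD
  obtain ⟨-, -, -, ⟨L, hL⟩, -⟩ := hHOM d S D hD
  obtain ⟨CH, hCH, h2⟩ := hH2N d S D (2 * L + 1) hd hD
  obtain ⟨CP, hCP, h3⟩ := hLIP d S D (2 * L + 1) hd hD
  obtain ⟨m, hm⟩ : ∃ m : ℝ, m = max 1 L ^ d := ⟨_, rfl⟩
  have m1 : 1 ≤ m := hm ▸ one_le_pow₀ (le_max_left _ _)
  have c2 : 0 < 2 ^ d * CH := by positivity
  refine ⟨2 * m + CP + 2 ^ d * CH, by positivity, ?_⟩
  intro T r e u p g hT hu hN hG hO hr he hr1 hr2
  have uL : ‖u‖ ≤ L := hL u hu.le (by linarith)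
  have L0 : 0 ≤ L := (norm_nonneg _).trans uL
  obtain ⟨w1, w2, -, -, w5⟩ := hWELL d u
  have l0 : 0 < ell u := hu.trans_le ((le_abs_self _).trans w1)
  have ld : 0 < ell u ^ d := by positivity
  have mm : max 1 ‖u‖ ^ d ≤ m := hm ▸ pow_le_pow_left₀ (by positivity) (max_le_max_left _ uL) d
  have lm : ell u ^ d ≤ m := (pow_le_pow_left₀ l0.le w2 d).trans mm
  have T0 : 0 < T := by linarith
  have r0 : 0 ≤ r := le_of_mul_le_mul_left (by linarith [norm_nonneg (nx T g - T • u)]) T0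
  constructor
  · refine (WfbA.norm_grad (c := CP / ell u ^ d) (by positivity) hG ?_).trans
      (div_le_div_of_nonneg_right (by linarith) ld.le)
    have a : ∀ᶠ u' : E d in nhds u, 0 < u'.1 := continuous_fst.continuousAt.eventually (lt_mem_nhds hu)
    filter_upwards [a, Metric.ball_mem_nhds u one_pos] with u' b c
    refine h3 u u' hu.le (by linarith) l0 b.le ?_ (b.trans_le ((le_abs_self _).trans (hWELL d u').1))
    linarith [norm_le_insert' u' u, mem_ball_iff_norm.1 c]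
  obtain ⟨v, hv⟩ : ∃ v : E d, nx T g = T • v := ⟨T⁻¹ • nx T g, by rw [smul_inv_smul₀ T0.ne']⟩
  have e1 : ‖nx T g - T • u‖ = T * ‖v - u‖ := by
    rw [hv, ← smul_sub, norm_smul, Real.norm_of_nonneg T0.le]
  rw [e1] at hr he
  have vr : ‖v - u‖ ≤ r := le_of_mul_le_mul_left hr T0
  have ru : r ≤ u.1 := by nlinarith
  have u1 : u.1 ≤ L := ((le_abs_self _).trans (norm_fst_le u)).trans uL
  have v0 : 0 ≤ v.1 := by
    have := (norm_fst_le (v - u)).trans vr
    rw [Prod.fst_sub, Real.norm_eq_abs, abs_le] at this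
    linarith [this.1]
  have vL : ‖v‖ ≤ 2 * L + 1 := by linarith [norm_le_insert' v u]
  have lv : ell u ≤ 2 * ell v := by
    refine w5 v (by omega) ?_
    have := mul_le_mul mm vr (norm_nonneg _) (by linarith)
    nlinarith
  have lv0 : 0 < ell v := by linarith
  have a1 := h2 v v0 vL lv0 T hT g
  rw [hv, sub_self, norm_zero, add_zero, mul_one] at a1
  have a2 : CH / ell v ^ d ≤ 2 ^ d * CH / ell u ^ d := by
    rw [div_le_div_iff₀ (by positivity) ld]
    have := pow_le_pow_left₀ l0.le lv d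
    rw [mul_pow] at this
    nlinarith
  have a3 : |T * (D.NN v - D.NN u - pair p (v - u))| ≤ m / ell u ^ d := by
    rw [abs_mul, abs_of_pos T0]
    have := mul_le_mul_of_nonneg_left (hO v vr) T0.le
    have b : 1 ≤ m / ell u ^ d := (one_le_div ld).2 lm
    nlinarith
  have e2 : Fb T (D.NN u) u p (len S g) g =
      ((len S g : ℝ) - T * D.NN v) + T * (D.NN v - D.NN u - pair p (v - u)) := by
    rw [Fb, hv, ← smul_sub, pair_smul]
    ring
  rw [e2]
  refine (abs_add_le _ _).trans ((add_le_add (a1.trans a2) a3).trans ?_)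
  rw [← add_div]
  exact div_le_div_of_nonneg_right (by linarith) ld.le

end Pool.Agent.P.MP_a0f0ad_al.Fi
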