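import Pool.Agent.P.MP_a0f0ad_al.Fi.W.Well
import Pool.Agent.P.MP_a0f0ad_al.Fi.W.Wfb

/-! Step FB of the filiform project. -/

namespace Pool.Agent.P.MP_a0f0ad_al.Fi

theorem p_FB (hHOM : S_HOM) (hH2N : S_H2N) (hLIP : S_LIP) :
    S_FB := p_WFB hHOM hH2N hLIP p_WELL

end Pool.Agent.P.MP_a0f0ad_al.Fi
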