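import Mathlib

/-! Filling lemma: an integer vector with `|r j| ≤ ρ H ^ j` is a sum of `O(ρ)` signed moment
vectors at heights in `[0, d H]` and signed unit vectors. -/

namespace Pool.Agent.P.MP_a0f0ad_al.Fi

open Polynomial

/-- `r` is a sum of at most `n` vectors with the property `P`. -/
def SumOf {A : Type} [AddCommGroup A] (P : A → Prop) (n : ℕ) (r : A) : Prop :=
  ∃ L : List A, L.length ≤ n ∧ (∀ x ∈ L, P x) ∧ L.sum = r

namespace SumOf

variable {A : Type} [AddCommGroup A] {P P' : A → Prop} {n k : ℕ} {r s : A}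

theorem zero : SumOf P n 0 := ⟨[], by simp, by simp, rfl⟩

theorem single (h : P r) : SumOf P 1 r := ⟨[r], by simp, by simpa, by simp⟩

theorem add (h : SumOf P n r) (h' : SumOf P k s) : SumOf P (n + k) (r + s) := by
  obtain ⟨L, a, b, rfl⟩ := h
  obtain ⟨L', a', b', rfl⟩ := h'
  refine ⟨L ++ L', by simp; omega, fun x hx => ?_, by simp⟩
  rcases List.mem_append.1 hx with h | h
  exacts [b x h, b' x h]

theorem mono (h : SumOf P n r) (hn : n ≤ k) (hP : ∀ x, P x → P' x) : SumOf P' k r := by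
  obtain ⟨L, a, b, c⟩ := h
  exact ⟨L, a.trans hn, fun x hx => hP x (b x hx), c⟩

theorem map {B : Type} [AddCommGroup B] {Q : B → Prop} (f : A →+ B) (h : SumOf P n r)
    (hP : ∀ x, P x → Q (f x)) : SumOf Q n (f r) := by
  obtain ⟨L, a, b, rfl⟩ := h
  refine ⟨L.map f, by simpa, fun x hx => ?_, (map_list_sum f L).symm⟩
  obtain ⟨y, hy, rfl⟩ := List.mem_map.1 hx
  exact hP y (b y hy)

theorem neg (h : SumOf P n r) (hP : ∀ x, P x → P (-x)) : SumOf P n (-r) :=
  h.map (negAddMonoidHom) hP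

theorem bind (h : SumOf P n r) (hP : ∀ x, P x → SumOf P' k x) : SumOf P' (n * k) r := by
  obtain ⟨L, a, b, rfl⟩ := h
  induction L generalizing n with
  | nil => exact zero
  | cons x L ih =>
    have := (hP x (b x (by simp))).add (ih le_rfl fun y hy => b y (by simp [hy]))
    rw [List.sum_cons]
    refine this.mono ?_ fun _ h => h
    simp only [List.length_cons] at a
    nlinarith

theorem nsmul (h : P r) (c : ℕ) : SumOf P c (c • r) := by
  induction c with
  | zero => simpa using zero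
  | succ c ih => rw [succ_nsmul]; exact ih.add (single h)

theorem abs_le {P : ℤ → Prop} {r B : ℤ} (h : SumOf P n r) (hB : 0 ≤ B) (hP : ∀ x, P x → |x| ≤ B) :
    |r| ≤ n * B := by
  obtain ⟨L, a, b, rfl⟩ := h
  induction L generalizing n with
  | nil => simp; positivity
  | cons x L ih =>
    have h1 := ih le_rfl fun y hy => b y (by simp [hy])
    have h2 := hP x (b x (by simp))
    have h3 : ((L.length + 1 : ℕ) : ℤ) ≤ n := by exact_mod_cast a
    have h4 := abs_add_le x L.sum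
    rw [List.sum_cons]
    push_cast at h3
    nlinarith

end SumOf

namespace FillA

/-- The integer moment vector. -/
def mv (d : ℕ) (x : ℤ) : Fin d → ℤ := fun j => x ^ (j : ℕ)

/-- Signed moment vectors at heights in `[0, H]`. -/
def Mo (d : ℕ) (H : ℕ) (v : Fin d → ℤ) : Prop := ∃ h : ℕ, h ≤ H ∧ (v = mv d h ∨ v = -mv d h)

lemma Mo.neg {d H : ℕ} {v : Fin d → ℤ} (h : Mo d H v) : Mo d H (-v) := by
  obtain ⟨x, a, rfl | rfl⟩ := h
  exacts [⟨x, a, Or.inr rfl⟩, ⟨x, a, Or.inl (neg_neg _)⟩]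

/-- Iterated differences of a polynomial. -/
noncomputable def dp : List ℕ → ℤ[X] → ℤ[X]
  | [], p => p
  | h :: l, p => taylor (h : ℤ) (dp l p) - dp l p

lemma step (h : ℤ) (p : ℤ[X]) (n : ℕ) (hp : ∀ i, n + 1 < i → p.coeff i = 0) :
    (∀ i, n < i → (taylor h p - p).coeff i = 0) ∧
      (taylor h p - p).coeff n = (n + 1) * h * p.coeff (n + 1) := by
  have key : ∀ i, n ≤ i → (taylor h p).coeff i = p.coeff i + (i + 1) * h * p.coeff (i + 1) := by
    intro i hi
    have hd : (hasseDeriv i p).natDegree < 2 := by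
      refine Nat.lt_succ_of_le (natDegree_le_iff_coeff_eq_zero.2 fun k hk => ?_)
      rw [hasseDeriv_coeff, hp _ (by omega), mul_zero]
    rw [taylor_coeff, eval_eq_sum_range' hd]
    simp [Finset.sum_range_succ, hasseDeriv_coeff, add_comm 1 i]
    ring
  refine ⟨fun i hi => ?_, ?_⟩
  · rw [coeff_sub, key i hi.le, hp (i + 1) (by omega)]; ring
  · rw [coeff_sub, key n le_rfl]; ring

lemma step0 (h : ℤ) (p : ℤ[X]) (hp : ∀ i, 0 < i → p.coeff i = 0) : taylor h p - p = 0 := by
  have : p = C (p.coeff 0) := eq_C_of_natDegree_le_zero (natDegree_le_iff_coeff_eq_zero.2 hp)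
  rw [this, taylor_C, sub_self]

lemma dp_low (l : List ℕ) (n : ℕ) : (∀ i, n < i → (dp l (X ^ (l.length + n))).coeff i = 0) ∧
    (n.factorial : ℤ) * (dp l (X ^ (l.length + n))).coeff n =
      (l.length + n).factorial * (l.prod : ℕ) := by
  induction l generalizing n with
  | nil => exact ⟨fun i hi => by simp [dp, coeff_X_pow, hi.ne'], by simp [dp]⟩
  | cons h l ih =>
    obtain ⟨a, b⟩ := ih (n + 1)
    have e : (h :: l).length + n = l.length + (n + 1) := by simp; ring
    obtain ⟨c, d⟩ := step h _ n a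
    rw [e]
    refine ⟨c, ?_⟩
    rw [dp, d, List.prod_cons]
    rw [Nat.factorial_succ] at b
    push_cast at b ⊢
    linear_combination (h : ℤ) * b

lemma dp_zero (l : List ℕ) (i : ℕ) (hi : i < l.length) : dp l (X ^ i) = 0 := by
  induction l with
  | nil => simp at hi
  | cons h l ih =>
    rcases Nat.lt_succ_iff_lt_or_eq.1 hi with h1 | h1
    · rw [dp, ih h1]; simp
    · rw [dp, h1]; exact step0 _ _ (dp_low l 0).1

lemma dp_sum (d : ℕ) (l : List ℕ) (x : ℕ) :
    SumOf (Mo d (x + l.sum)) (2 ^ l.length) fun j : Fin d => (dp l (X ^ (j : ℕ))).eval (x : ℤ) := by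
  induction l generalizing x with
  | nil => exact SumOf.single ⟨x, by simp, Or.inl (by funext j; simp [dp, mv])⟩
  | cons h l ih =>
    have h1 := (ih (x + h)).mono le_rfl (P' := Mo d (x + (h :: l).sum)) fun v hv => by
      simpa [add_assoc] using hv
    have h2 := ((ih x).neg fun _ => Mo.neg).mono le_rfl (P' := Mo d (x + (h :: l).sum))
      fun v ⟨y, a, b⟩ => ⟨y, a.trans (by simp), b⟩
    have := h1.add h2
    rw [List.length_cons, pow_succ, mul_two]
    refine cast (congrArg _ (funext fun j => ?_)) this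
    simp [dp, taylor_eval, sub_eq_add_neg]

/-- Products of `j` numbers that are at most `H`. -/
def Pr (j H : ℕ) (n : ℤ) : Prop := ∃ l : List ℕ, l.length = j ∧ (∀ h ∈ l, h ≤ H) ∧ n = (l.prod : ℕ)

lemma digits (H : ℕ) (hH : 1 ≤ H) (ρ j n : ℕ) (hn : n ≤ ρ * H ^ j) :
    SumOf (Pr j H) (ρ + j) (n : ℤ) := by
  induction j generalizing n with
  | zero =>
    have := SumOf.nsmul (P := Pr 0 H) (r := 1) ⟨[], rfl, by simp, by simp⟩ n
    simp only [nsmul_eq_mul, mul_one] at this
    exact this.mono (by simpa using hn) fun _ h => h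
  | succ j ih =>
    have h1 := (ih (n / H) (Nat.div_le_of_le_mul (by rw [pow_succ] at hn; nlinarith))).map
      (Q := Pr (j + 1) H) (AddMonoidHom.mulLeft (H : ℤ)) fun x ⟨l, a, b, c⟩ =>
        ⟨H :: l, by simp [a], by simpa using b, by simp [c]⟩
    have h2 : Pr (j + 1) H (n % H : ℕ) := by
      refine ⟨(n % H) :: List.replicate j 1, by simp, fun h hh => ?_, by simp⟩
      rcases List.mem_cons.1 hh with rfl | hh
      · exact (Nat.mod_lt _ hH).le
      · rw [List.eq_of_mem_replicate hh]; exact hH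
    have := h1.add (SumOf.single h2)
    refine cast (congrArg _ ?_) this
    simp only [AddMonoidHom.coe_mulLeft]
    exact_mod_cast Nat.div_add_mod n H

/-- Signed moment vectors at heights in `[0, H]`, and signed unit vectors. -/
def Gen (d : ℕ) (H : ℕ) (v : Fin d → ℤ) : Prop :=
  Mo d H v ∨ ∃ j, v = Pi.single j 1 ∨ v = -Pi.single j 1

lemma Gen.neg {d H : ℕ} {v : Fin d → ℤ} (h : Gen d H v) : Gen d H (-v) := by
  rcases h with h | ⟨j, rfl | rfl⟩
  exacts [Or.inl h.neg, Or.inr ⟨j, Or.inr rfl⟩, Or.inr ⟨j, Or.inl (neg_neg _)⟩]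

lemma Gen.abs_le {d H : ℕ} (hH : 1 ≤ H) {v : Fin d → ℤ} (h : Gen d H v) (j : Fin d) :
    |v j| ≤ (H : ℤ) ^ (j : ℕ) := by
  have h1 : (1 : ℤ) ≤ (H : ℤ) ^ (j : ℕ) := one_le_pow₀ (by exact_mod_cast hH)
  have h2 : ∀ x : ℕ, x ≤ H → |mv d x j| ≤ (H : ℤ) ^ (j : ℕ) := fun x hx => by
    rw [mv, abs_of_nonneg (by positivity)]
    exact pow_le_pow_left₀ (by positivity) (by exact_mod_cast hx) _
  have h3 : ∀ i, |(Pi.single i 1 : Fin d → ℤ) j| ≤ (H : ℤ) ^ (j : ℕ) := fun i => by
    rw [Pi.single_apply]; split_ifs <;> simp [h1]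
  rcases h with ⟨x, a, rfl | rfl⟩ | ⟨i, rfl | rfl⟩
  exacts [h2 x a, by simpa using h2 x a, h3 i, by simpa using h3 i]

/-- one coordinate -/
lemma coord (d H : ℕ) (hH : 1 ≤ H) (ρ : ℕ) (k : Fin d) (n : ℤ) (hn : |n| ≤ ρ * (H : ℤ) ^ (k : ℕ)) :
    ∃ s, SumOf (Gen d (d * H)) ((ρ + d) * 2 ^ d + d.factorial) s ∧ s k = n ∧
      ∀ j, j < k → s j = 0 := by
  wlog h0 : 0 ≤ n generalizing n
  · obtain ⟨s, a, b, c⟩ := this (-n) (by simpa) (by omega)
    exact ⟨-s, a.neg fun _ => Gen.neg, by simp [b], fun j hj => by simp [c j hj]⟩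
  lift n to ℕ using h0
  have hf := (k : ℕ).factorial_pos
  have hn' : n ≤ ρ * H ^ (k : ℕ) := by
    rw [abs_of_nonneg (by positivity)] at hn; exact_mod_cast hn
  obtain ⟨L, a, b, c⟩ := digits H hH ρ k (n / (k : ℕ).factorial) ((Nat.div_le_self _ _).trans hn')
  have main : ∃ s, SumOf (Gen d (d * H)) (L.length * 2 ^ d) s ∧
      s k = (k : ℕ).factorial * L.sum ∧ ∀ j, j < k → s j = 0 := by
    clear a c
    induction L with
    | nil => exact ⟨0, SumOf.zero, by simp, by simp⟩
    | cons x L ih =>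
      obtain ⟨s, h1, h2, h3⟩ := ih fun y hy => b y (by simp [hy])
      obtain ⟨l, e1, e2, rfl⟩ := b x (by simp)
      have hs : 0 + l.sum ≤ d * H := by
        have := List.sum_le_card_nsmul l H e2
        rw [e1, smul_eq_mul] at this
        have := Nat.mul_le_mul_right H k.2.le
        omega
      have h4 := (dp_sum d l 0).mono (k := 2 ^ d) (P' := Gen d (d * H))
        (Nat.pow_le_pow_right (by norm_num) (e1 ▸ k.2.le))
        fun v ⟨y, a, b⟩ => Or.inl ⟨y, a.trans hs, b⟩
      refine ⟨_, (h4.add h1).mono (by simp [add_mul, add_comm]) fun _ h => h, ?_, fun j hj => ?_⟩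
      · have := (dp_low l 0).2
        simp only [Nat.factorial_zero, Nat.cast_one, one_mul, add_zero, e1] at this
        simp only [Pi.add_apply, Nat.cast_zero, ← coeff_zero_eq_eval_zero, this, h2, List.sum_cons]
        ring
      · simp [h3 j hj, dp_zero l j (e1 ▸ hj)]
  obtain ⟨s, h1, h2, h3⟩ := main
  have h4 := SumOf.nsmul (P := Gen d (d * H)) (Or.inr ⟨k, Or.inl rfl⟩) (n % (k : ℕ).factorial)
  refine ⟨_, (h1.add h4).mono ?_ fun _ h => h, ?_, fun j hj => ?_⟩
  · have := Nat.mul_le_mul_right (2 ^ d) (a.trans (Nat.add_le_add_left k.2.le ρ))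
    have := (Nat.mod_lt n hf).le.trans (Nat.factorial_le k.2.le)
    omega
  · rw [Pi.add_apply, h2, c, Pi.smul_apply, Pi.single_eq_same, nsmul_eq_mul, mul_one]
    exact_mod_cast Nat.div_add_mod n _
  · simp [h3 j hj, hj.ne]

end FillA

open FillA in
/-- The filling lemma. -/
theorem fill (d : ℕ) : ∃ C : ℕ, ∀ H ρ : ℕ, 1 ≤ H → 1 ≤ ρ → ∀ r : Fin d → ℤ,
    (∀ j, |r j| ≤ ρ * (H : ℤ) ^ (j : ℕ)) → SumOf (Gen d (d * H)) (C * ρ) r := by
  have main : ∀ k, ∃ C : ℕ, ∀ H ρ : ℕ, 1 ≤ H → 1 ≤ ρ → ∀ r : Fin d → ℤ,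
      (∀ j : Fin d, (j : ℕ) + k < d → r j = 0) →
      (∀ j, |r j| ≤ ρ * (H : ℤ) ^ (j : ℕ)) → SumOf (Gen d (d * H)) (C * ρ) r := by
    intro k
    induction k with
    | zero =>
      refine ⟨0, fun H ρ _ _ r h _ => ?_⟩
      rw [show r = 0 from funext fun j => h j j.2]; exact SumOf.zero
    | succ k ih =>
      obtain ⟨C, hC⟩ := ih
      by_cases hk : k < d
      swap
      · exact ⟨C, fun H ρ a b r _ h => hC H ρ a b r (fun j hj => by omega) h⟩
      set A := (1 + d) * 2 ^ d + d.factorial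
      refine ⟨A + C * (1 + A * d ^ d), fun H ρ hH hρ r h0 h => ?_⟩
      obtain ⟨s, h1, h2, h3⟩ := coord d H hH ρ ⟨d - 1 - k, by omega⟩ _ (h _)
      have hd : 1 ≤ d := by omega
      have h4 : SumOf (Gen d (d * H)) (A * ρ) s := h1.mono (by
        have := Nat.mul_le_mul_left (d * 2 ^ d + d.factorial) hρ
        simp only [A]; nlinarith) fun _ h => h
      have h5 := hC H ((1 + A * d ^ d) * ρ) hH (by nlinarith [Nat.zero_le (A * d ^ d * ρ)]) (r - s)
        (fun j hj => by
          rcases (show (j : ℕ) < d - 1 - k ∨ (j : ℕ) = d - 1 - k by omega) with e | e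
          · simp [h0 j (by omega), h3 j e]
          · rw [show j = ⟨d - 1 - k, by omega⟩ from Fin.ext e, Pi.sub_apply, h2, sub_self])
        (fun j => by
          have e1 := (h4.map (Q := fun x => |x| ≤ ((d * H : ℕ) : ℤ) ^ (j : ℕ))
            (Pi.evalAddMonoidHom (fun _ => ℤ) j)
            fun x hx => hx.abs_le (by nlinarith) j).abs_le (by positivity) fun _ h => h
          have e2 : (d : ℤ) ^ (j : ℕ) ≤ d ^ d := pow_le_pow_right₀ (by exact_mod_cast hd) j.2.le
          have e3 := abs_sub (r j) (s j)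
          have e4 := h j
          have e5 : (0 : ℤ) ≤ A * ρ * (H : ℤ) ^ (j : ℕ) := by positivity
          simp only [Pi.evalAddMonoidHom_apply] at e1
          push_cast at e1 ⊢
          rw [mul_pow] at e1
          rw [Pi.sub_apply]
          nlinarith)
      have := h4.add h5
      rw [add_sub_cancel] at this
      exact this.mono (le_of_eq (by ring)) fun _ h => h
  obtain ⟨C, hC⟩ := main d
  exact ⟨C, fun H ρ a b r h => hC H ρ a b r (fun j hj => by omega) h⟩

end Pool.Agent.P.MP_a0f0ad_al.Fi
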