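import Pool.Agent.P.MP_a0f0ad_al.Fi.W.Iface

/-! Step GRP of the filiform project. -/

namespace Pool.Agent.P.MP_a0f0ad_al.Fi

open Finset MeasureTheory

namespace GrpA

variable {d : ℕ}

/-- the vertical subgroup -/
def iy (d : ℕ) : Multiplicative (Fin d → ℤ) →* G d where
  toFun y := ⟨y.toAdd, 0⟩
  map_one' := rfl
  map_mul' x y := G.ext (by simp [sh_zero]) (by simp)

/-- the horizontal subgroup -/
def ia (d : ℕ) : Multiplicative ℤ →* G d where
  toFun a := ⟨0, a.toAdd⟩
  map_one' := rfl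
  map_mul' x y := G.ext (by simp [sh_zero_right]) (by simp)

theorem fg (d : ℕ) : Group.FG (G d) := by
  have h1 : (iy d).range.FG := (Group.fg_iff_subgroup_fg _).1 inferInstance
  have h2 : (ia d).range.FG := (Group.fg_iff_subgroup_fg _).1 inferInstance
  have h3 : (iy d).range ⊔ (ia d).range = ⊤ := by
    refine eq_top_iff.2 fun g _ => ?_
    have e : g = iy d (.ofAdd g.y) * ia d (.ofAdd g.a) :=
      G.ext (by simp [iy, ia, sh_zero_right]) (by simp [iy, ia])
    rw [e]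
    exact Subgroup.mul_mem_sup ⟨_, rfl⟩ ⟨_, rfl⟩
  exact ⟨h3 ▸ h1.sup h2⟩

theorem sh_low (a : ℤ) (y : Fin d → ℤ) (j : Fin d) (h : ∀ i : Fin d, (i : ℕ) < j → y i = 0) :
    sh a y j = y j := by
  simp only [sh]
  rw [Finset.sum_eq_single j]
  · simp
  · intro i _ hi
    rcases lt_or_gt_of_ne hi with k | k
    · rw [h i (Fin.lt_def.1 k), mul_zero]
    · simp [Nat.choose_eq_zero_of_lt (Fin.lt_def.1 k)]
  · simp

/-- the terms of the central series -/
def Hs (d n : ℕ) : Subgroup (G d) where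
  carrier := {g | g.a = 0 ∧ ∀ j : Fin d, (j : ℕ) < n → g.y j = 0}
  mul_mem' := fun {g h} hg hh =>
    ⟨by simp [hg.1, hh.1], fun j hj => by simp [hg.1, sh_zero, hg.2 j hj, hh.2 j hj]⟩
  one_mem' := ⟨rfl, fun _ _ => rfl⟩
  inv_mem' := fun {g} hg => ⟨by simp [hg.1], fun j hj => by simp [hg.1, sh_zero, hg.2 j hj]⟩

theorem nil (d : ℕ) : Group.IsNilpotent (G d) := by
  refine (Subgroup.nilpotent_iff_finite_descending_central_series _).2
    ⟨d + 1, fun n => Nat.casesOn n ⊤ (Hs d), ⟨rfl, fun x n hx g => ?_⟩, ?_⟩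
  · cases n with
    | zero => exact ⟨by simp [commutatorElement_def], fun j hj => absurd hj (Nat.not_lt_zero _)⟩
    | succ n =>
      obtain ⟨h1, h2⟩ : x ∈ Hs d n := hx
      refine ⟨by simp [commutatorElement_def], fun j hj => ?_⟩
      have e := sh_low g.a x.y j fun i hi => h2 i (by omega)
      simp [commutatorElement_def, h1, sh_zero, sh_neg, sh_sh, e]
  · refine eq_bot_iff.2 fun g hg => ?_
    obtain ⟨h1, h2⟩ : g ∈ Hs d d := hg
    exact G.ext (funext fun j => h2 j j.2) h1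

end GrpA

theorem p_GRP :
    S_GRP := fun d => ⟨GrpA.fg d, GrpA.nil d⟩

end Pool.Agent.P.MP_a0f0ad_al.Fi
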