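import Pool.Agent.P.MP_a0f0ad_al.Fi.W.Iface2
import Pool.Agent.P.MP_a0f0ad_al.Fi.Z.Bl

/-! Step WATI of the filiform project. -/

namespace Pool.Agent.P.MP_a0f0ad_al.Fi

open Finset MeasureTheory

namespace WatiA

variable {d : ℕ} {S : Finset (G d)} {D : LD d}

theorem base (h : D.Spec S) : ∃ (z0 : Fin d → ℤ) (t : ℕ), 0 < co z0 0 ∧
    (t : ℝ) = D.Q * (co z0 0 : ℤ) ∧ len S (⟨z0, 0⟩ : G d) ≤ t := by
  have key : ∀ (Y : G d) (t : ℕ), 0 < t → Y.a = 0 → (t : ℝ) = D.Q * (Y.b : ℝ) → len S Y ≤ t →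
      ∃ (z0 : Fin d → ℤ) (t : ℕ), 0 < co z0 0 ∧
        (t : ℝ) = D.Q * (co z0 0 : ℤ) ∧ len S (⟨z0, 0⟩ : G d) ≤ t := by
    intro Y t ht ha hb hl
    have e : (⟨Y.y, 0⟩ : G d) = Y := G.ext rfl ha.symm
    refine ⟨Y.y, t, ?_, hb, by rwa [e]⟩
    have h1 : (0 : ℝ) < D.Q * (Y.b : ℝ) := by rw [← hb]; exact_mod_cast ht
    have h2 : (0 : ℝ) < (Y.b : ℝ) := (mul_pos_iff_of_pos_left h.Qpos).1 h1
    exact_mod_cast h2
  rcases h.om_Q_nonneg.lt_or_eq with h0 | h0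
  · obtain ⟨a, b, c⟩ := h.wait h0
    exact key D.C 1 one_pos b (by rw [c]; simp) (len_mem a)
  · have m0 := h.memA 0 (Nat.zero_le _)
    have mn := h.memA D.n le_rfl
    obtain ⟨p, hp⟩ := Int.eq_ofNat_of_zero_le m0.2.le
    obtain ⟨r, hr⟩ := Int.eq_ofNat_of_zero_le mn.2.le
    have hp0 : 0 < p := by have := m0.2; omega
    have hr0 : 0 < r := by have := mn.2; omega
    refine key (D.A D.n ^ p * (D.A 0)⁻¹ ^ r) (p + r) (by omega) ?_ ?_ ?_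
    · simp only [G.mul_a, G.pow_a, G.inv_a, hp, hr]; ring
    · simp only [LD.om, LD.lp, h.idx_Q le_rfl, h.idx_negQ le_rfl, hp, hr] at h0
      have a1 : (p : ℝ) ≠ 0 := by exact_mod_cast hp0.ne'
      have a2 : (r : ℝ) ≠ 0 := by exact_mod_cast hr0.ne'
      simp only [G.mul_b, G.pow_b, G.inv_b]
      push_cast at h0 ⊢
      field_simp at h0
      linarith
    · have a1 := h.sym.len_mul (D.A D.n ^ p) ((D.A 0)⁻¹ ^ r)
      have a2 := (h.sym.len_pow (D.A D.n) p).trans (Nat.mul_le_mul_left _ (len_mem mn.1))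
      have a3 := (h.sym.len_pow (D.A 0)⁻¹ r).trans
        (Nat.mul_le_mul_left _ (len_mem (h.sym.2.1 _ m0.1)))
      omega

theorem atom (h : D.Spec S) : ∃ b : ℝ, 0 ≤ b ∧ ∀ T μ : ℝ, 0 ≤ T → ∃ y : Fin d → ℤ,
    (len S (⟨y, 0⟩ : G d) : ℝ) ≤ T * (D.Q * |μ|) ∧ |((co y 0 : ℤ) : ℝ) - T * μ| ≤ b ∧
      ∀ j, |(y j : ℝ)| ≤ b * |μ| * T := by
  obtain ⟨z0, t, h1, h2, h3⟩ := base h
  have hb : (1 : ℝ) ≤ (co z0 0 : ℤ) := by exact_mod_cast h1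
  have hs : ∀ j, |(z0 j : ℝ)| ≤ ∑ i, |(z0 i : ℝ)| := fun j =>
    single_le_sum (f := fun i => |(z0 i : ℝ)|) (fun _ _ => abs_nonneg _) (mem_univ j)
  have hs0 : 0 ≤ ∑ i, |(z0 i : ℝ)| := sum_nonneg fun _ _ => abs_nonneg _
  have pos : ∀ T μ : ℝ, 0 ≤ T → 0 ≤ μ → ∃ y : Fin d → ℤ,
      (len S (⟨y, 0⟩ : G d) : ℝ) ≤ T * (D.Q * μ) ∧
      |((co y 0 : ℤ) : ℝ) - T * μ| ≤ (co z0 0 : ℤ) + ∑ i, |(z0 i : ℝ)| ∧
      ∀ j, |(y j : ℝ)| ≤ ((co z0 0 : ℤ) + ∑ i, |(z0 i : ℝ)|) * μ * T := by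
    intro T μ hT hμ
    have hx : 0 ≤ T * μ := mul_nonneg hT hμ
    have a1 := Nat.floor_le (div_nonneg hx (by linarith : (0 : ℝ) ≤ (co z0 0 : ℤ)))
    have a2 := Nat.lt_floor_add_one (T * μ / (co z0 0 : ℤ))
    rw [le_div_iff₀ (by linarith)] at a1
    rw [div_lt_iff₀ (by linarith)] at a2
    generalize ⌊T * μ / ((co z0 0 : ℤ) : ℝ)⌋₊ = n at a1 a2
    have hn : (0 : ℝ) ≤ n := Nat.cast_nonneg n
    have e : (⟨((⟨z0, 0⟩ : G d) ^ n).y, 0⟩ : G d) = (⟨z0, 0⟩ : G d) ^ n :=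
      G.ext rfl (by simp)
    refine ⟨((⟨z0, 0⟩ : G d) ^ n).y, ?_, ?_, fun j => ?_⟩
    · rw [e]
      have a3 : (len S ((⟨z0, 0⟩ : G d) ^ n) : ℝ) ≤ n * t := by
        exact_mod_cast (h.sym.len_pow _ n).trans (Nat.mul_le_mul_left _ h3)
      rw [h2] at a3
      have := mul_le_mul_of_nonneg_left a1 h.Qpos.le
      linarith
    · have a3 : co ((⟨z0, 0⟩ : G d) ^ n).y 0 = n * co z0 0 := G.pow_b _ n
      rw [a3, abs_le]
      push_cast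
      constructor <;> linarith
    · have a3 : ((⟨z0, 0⟩ : G d) ^ n).y j = n * z0 j := by
        simp [G.pow_y, sh_zero]
      rw [a3]
      push_cast
      rw [abs_mul, abs_of_nonneg hn]
      have a4 : (n : ℝ) ≤ T * μ := by nlinarith
      calc (n : ℝ) * |(z0 j : ℝ)| ≤ T * μ * ((co z0 0 : ℤ) + ∑ i, |(z0 i : ℝ)|) :=
            mul_le_mul a4 (by linarith [hs j]) (abs_nonneg _) hx
        _ = _ := by ring
  refine ⟨(co z0 0 : ℤ) + ∑ i, |(z0 i : ℝ)|, by linarith, fun T μ hT => ?_⟩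
  rcases le_total 0 μ with hμ | hμ
  · rw [abs_of_nonneg hμ]
    exact pos T μ hT hμ
  · rw [abs_of_nonpos hμ]
    obtain ⟨y, a1, a2, a3⟩ := pos T (-μ) hT (by linarith)
    have e : (⟨-y, 0⟩ : G d) = (⟨y, 0⟩ : G d)⁻¹ := G.ext (by simp [sh_zero]) (by simp)
    refine ⟨-y, by rwa [e, h.sym.len_inv], ?_, fun j => by simpa using a3 j⟩
    rw [co_neg, ← abs_neg]
    convert a2 using 2
    push_cast
    ring

end WatiA

theorem p_WATI (hWINS : S_WINS) (hWSH : S_WSH) :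
    S_WATI := by
  intro d S D L B h
  classical
  obtain ⟨b, hb, hat⟩ := WatiA.atom h
  have hL := abs_nonneg L
  have hB := abs_nonneg B
  obtain ⟨C1, hC1, hsh⟩ := hWSH d (|L| + |B|) (by linarith)
  obtain ⟨C2, hC2, hbd⟩ := exists_Vd_bound d (|L| + |B|)
  obtain ⟨C3, hC3, hta⟩ := exists_Vd_taylor d (|L| + |B|)
  obtain ⟨C, hC⟩ : ∃ C, C = C1 * (b * |L|) + b * C2 + |L| * (C3 * |B|) := ⟨_, rfl⟩
  have hC0 : 0 ≤ C := by rw [hC]; positivity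
  refine ⟨(d + 1) * C + 1, by positivity, fun T w x1 Z mu hT hw hZ hz => ?_⟩
  obtain ⟨i1, i2, i3, i4, -⟩ := hWINS d S w h.sym hw
  have hT0 : 0 < T := by linarith
  have one : ∀ z μ : ℝ, |z| ≤ L → |μ| ≤ L → ∀ k ≤ w.length, |(x1 : ℝ) + ht w k - T * z| ≤ B →
      ∃ v : Fin d → ℤ, Ins S w (T * (D.Q * |μ|)) v ∧
        ∀ j : Fin d, |(sh x1 v j : ℝ) / T ^ (j : ℕ) - T * (μ * Vd 0 z j)| ≤ C := by
    intro z μ a1 a2 k hk a3
    replace a1 := a1.trans (le_abs_self L)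
    replace a2 := a2.trans (le_abs_self L)
    replace a3 := a3.trans (le_abs_self B)
    obtain ⟨y, b1, b2, b3⟩ := hat T μ hT0.le
    refine ⟨_, i3 _ _ _ (i4 k hk y) b1, fun j => ?_⟩
    rw [sh_sh]
    rw [← Int.cast_add] at a3
    generalize x1 + ht w k = x at a3
    have c1 : |(x : ℝ) / T - z| ≤ |B| / T := by
      rw [show (x : ℝ) / T - z = (x - T * z) / T by field_simp, abs_div, abs_of_pos hT0]
      gcongr
    have c2 : |B| / T ≤ |B| := div_le_self hB hT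
    have c3 : |(x : ℝ) / T| ≤ |L| + |B| := by
      have := abs_sub_abs_le_abs_sub ((x : ℝ) / T) z
      linarith
    have c4 := (hsh T (b * |L| * T) x y hT (by
      rwa [abs_div, abs_of_pos hT0, div_le_iff₀ hT0] at c3)).2 (fun j => (b3 j).trans (by gcongr)) j
    have c5 : |Vd 0 ((x : ℝ) / T) j| ≤ C2 := (norm_le_pi_norm _ j).trans (hbd 0 _ c3).1
    have c6 : |Vd 0 ((x : ℝ) / T) j - Vd 0 z j| ≤ C3 * (|B| / T) :=
      (norm_le_pi_norm (Vd 0 ((x : ℝ) / T) - Vd 0 z) j).trans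
        ((hta 0 z _ (by linarith) c3).1.trans (by gcongr))
    have c7 : ((x : ℝ) / T) ^ (j : ℕ) = Vd 0 ((x : ℝ) / T) j := by simp [Vd]
    rw [c7, show C1 * (b * |L| * T) / T = C1 * (b * |L|) by field_simp] at c4
    have c8 : |(((co y 0 : ℤ) : ℝ) - T * μ) * Vd 0 ((x : ℝ) / T) j| ≤ b * C2 := by
      rw [abs_mul]; exact mul_le_mul b2 c5 (abs_nonneg _) hb
    have c9 : |T * μ * (Vd 0 ((x : ℝ) / T) j - Vd 0 z j)| ≤ |L| * (C3 * |B|) := by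
      rw [abs_mul, abs_mul, abs_of_pos hT0]
      calc T * |μ| * |Vd 0 ((x : ℝ) / T) j - Vd 0 z j| ≤ T * |L| * (C3 * (|B| / T)) := by gcongr
        _ = _ := by field_simp
    rw [abs_le] at c4 c8 c9 ⊢
    constructor <;> linarith [c4.1, c4.2, c8.1, c8.2, c9.1, c9.2]
  have main : ∀ Z : Finset ℝ,
      (∀ z ∈ Z, |z| ≤ L ∧ |mu z| ≤ L ∧ ∃ k ≤ w.length, |(x1 : ℝ) + ht w k - T * z| ≤ B) →
      ∃ v : Fin d → ℤ, Ins S w (T * (D.Q * ∑ z ∈ Z, |mu z|)) v ∧ ∀ j : Fin d,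
        |(sh x1 v j : ℝ) / T ^ (j : ℕ) - T * ∑ z ∈ Z, mu z * Vd 0 z j| ≤ Z.card * C := by
    intro Z
    induction Z using Finset.induction_on with
    | empty => exact fun _ => ⟨0, by simpa using i1, fun j => by simp [sh_zero_right]⟩
    | insert z Z hzZ ih =>
      intro hz
      obtain ⟨v, a1, a2⟩ := ih fun x hx => hz x (mem_insert_of_mem hx)
      obtain ⟨b1, b2, k, hk, b3⟩ := hz z (mem_insert_self _ _)
      obtain ⟨v', c1, c2⟩ := one z (mu z) b1 b2 k hk b3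
      refine ⟨v' + v, i3 _ _ _ (i2 _ _ _ _ c1 a1) (by rw [sum_insert hzZ]; linarith), fun j => ?_⟩
      have d1 := abs_le.1 (a2 j)
      have d2 := abs_le.1 (c2 j)
      rw [sh_add, sum_insert hzZ, card_insert_of_notMem hzZ, Pi.add_apply, abs_le]
      push_cast
      rw [add_div]
      constructor <;> linarith [d1.1, d1.2, d2.1, d2.2]
  obtain ⟨v, a1, a2⟩ := main Z hz
  refine ⟨v, a1, fun j => (a2 j).trans ?_⟩
  have : (Z.card : ℝ) ≤ d + 1 := by exact_mod_cast hZ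
  nlinarith

end Pool.Agent.P.MP_a0f0ad_al.Fi
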