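import Pool.Agent.P.MP_a0f0ad_al.Fi.W.Iface2
import Pool.Agent.P.MP_a0f0ad_al.Fi.V.Iface
import Pool.Agent.P.MP_a0f0ad_al.Fi.Z.Bm

/-! Step WDIS of the filiform project. -/

namespace Pool.Agent.P.MP_a0f0ad_al.Fi

open Finset MeasureTheory

namespace WdisA

theorem const_idx {d : ℕ} (D : LD d) {ψ : ℝ → ℝ} (hψ : Continuous ψ) {x y : ℝ}
    (h : ∀ k < D.n, ∀ t ∈ Set.uIcc x y, ψ t ≠ D.th k) : D.idx (ψ x) = D.idx (ψ y) := by
  refine congrArg card (filter_congr fun k hk => ?_)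
  have key : D.th k ∉ Set.uIcc (ψ x) (ψ y) := fun hm => by
    obtain ⟨t, ht, e⟩ := intermediate_value_uIcc hψ.continuousOn hm
    exact h k (mem_range.1 hk) t ht e
  rw [Set.mem_uIcc] at key
  exact ⟨fun a => not_le.1 fun b => key (Or.inr ⟨b, a.le⟩),
    fun a => not_le.1 fun b => key (Or.inl ⟨b, a.le⟩)⟩

theorem exc {d : ℕ} {φ : Fin d → ℝ} (h : Nonconst φ) (w : ℕ → ℝ) (n : ℕ) :
    ∃ X : Finset ℝ, X.card ≤ n * d ∧ ∀ k < n, ∀ t, ev φ 0 t = w k → t ∈ X := by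
  refine ⟨(range n).biUnion fun k => (h.finite_level (w k)).1.toFinset, ?_, fun k hk t e => ?_⟩
  · refine (card_biUnion_le_card_mul _ _ d fun k _ => ?_).trans_eq (by rw [card_range])
    rw [← Set.ncard_eq_toFinset_card _ (h.finite_level (w k)).1]
    exact Nat.le_of_succ_le (h.finite_level (w k)).2
  · exact mem_biUnion.2 ⟨k, mem_range.2 hk, (Set.Finite.mem_toFinset _).2 e⟩

end WdisA

open WdisA in
theorem p_WDIS (hHOM : S_HOM) (hATT : S_ATT) (hAPR : S_APR) (hWLEN : S_WLEN) (hWPASS : S_WPASS) (hWATI : S_WATI) (hWNB : S_WNB) :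
    S_WDIS := by
  intro d S D L hd h
  obtain ⟨B, hB, -, -, hS⟩ := hWLEN d S h.sym
  obtain ⟨Bn, hBn, hN⟩ := hWNB d S D L h
  obtain ⟨-, -, H3, -, H5⟩ := hHOM d S D h
  obtain ⟨c, hc, hell⟩ := H5 Bn
  have hl0 := h.lp_zero_pos
  have hQ := h.Qpos
  have hL2 : 0 < Bn / D.lp 0 := by positivity
  obtain ⟨CP, hCP, hP⟩ := hWPASS d S (Bn / D.lp 0) B (D.n * (d + 1)) hL2.le fun s hs => (hS s hs).1
  obtain ⟨CA, hCA, hA⟩ := hWATI d S D (max (Bn / D.lp 0) ((Bn + 1) / D.Q)) B h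
  refine ⟨1 + 3 * CP + CA + Bn / D.lp 0 + B, c, by positivity, hc, fun u hu huL hl T hT => ?_⟩
  have hT0 : 0 < T := by linarith
  obtain ⟨m, M, hm, hM, hmM, hΨ⟩ := hATT d S D h u hu hl
  have hΨB : D.Psi m M u ≤ Bn := hΨ.trans_le (hN u hu huL)
  have hr : M - m ≤ Bn / D.lp 0 := (le_div_iff₀' hl0).2 ((H3 u m M hm hu hM hmM).2.trans hΨB)
  have win : ∀ x, m ≤ x → x ≤ M → |x| ≤ Bn / D.lp 0 := fun x a b =>
    abs_le.2 ⟨by linarith, by linarith⟩
  have hce := mul_le_mul_of_nonneg_left (hell u m M hm hu hM hmM hΨB) hT0.le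
  obtain ⟨φ, Z, mu, hφ, -, hZ, hZ', hy, hI⟩ :=
    hAPR d S D (by omega) h u m M T⁻¹ hm hu hM hmM (by positivity)
  have hA' := fun x => h.memA _ (D.idx_le x)
  have hA0 : ∀ x, (0 : ℝ) < (D.A (D.idx x)).a := fun x => by exact_mod_cast (hA' x).2
  have c1 := continuous_ev φ 0
  have cV : ∀ j : Fin d, Continuous fun x => (Vd 0 x : Fin d → ℝ) j := fun j => by fun_prop
  obtain ⟨X1, hX1, hX1'⟩ := exc hφ D.th D.n
  obtain ⟨X2, hX2, hX2'⟩ := exc hφ (fun k => -D.th k) D.n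
  have up := fun α τ x0 => hP T 1 α τ (fun x => D.A (D.idx (ev φ 0 x))) X1 x0 hT (Or.inl rfl)
    (fun x => ⟨(hA' _).1, by simpa using (hA' _).2⟩) hX1
    (fun x y a => congrArg D.A (const_idx D c1 fun k hk t ht e => a t (hX1' k hk t e) ht))
    (h.ii_inv_a c1) (fun j => h.ii_kp c1 (cV j))
  have e1 : ∀ x, ((((D.A (D.idx x))⁻¹).a : ℝ))⁻¹ = -(((D.A (D.idx x)).a : ℝ))⁻¹ := fun x => by
    rw [G.inv_a, Int.cast_neg, inv_neg]
  have e2 : ∀ x, (((D.A (D.idx x))⁻¹).b : ℝ) / (((D.A (D.idx x))⁻¹).a : ℝ) = D.kp x := fun x => by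
    rw [G.inv_a, G.inv_b, Int.cast_neg, Int.cast_neg, neg_div_neg_eq]
    rfl
  have dn := fun α τ x0 => hP T (-1) α τ (fun x => (D.A (D.idx (-ev φ 0 x)))⁻¹) X2 x0 hT
    (Or.inr rfl) (fun x => ⟨h.sym.2.1 _ (hA' _).1, by simpa using (hA' _).2⟩) hX2
    (fun x y a => congrArg (fun k => (D.A k)⁻¹) (const_idx D c1.fun_neg fun k hk t ht e =>
      a t (hX2' k hk t (neg_eq_iff_eq_neg.1 e)) ht))
    (fun s t => by simp only [e1]; exact (h.ii_inv_a c1.fun_neg s t).neg)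
    (fun j s t => by simpa only [e2] using h.ii_kp c1.fun_neg (cV j) s t)
  simp only [e1, e2, intervalIntegral.integral_neg] at dn
  have hTm := mul_le_mul_of_nonneg_left hm hT0.le
  have hTM := mul_le_mul_of_nonneg_left hM hT0.le
  have hTmM := mul_le_mul_of_nonneg_left hmM.le hT0.le
  obtain ⟨w1, a1, a2, a3, -, a5, a6⟩ := dn 0 m 0 (win 0 hm (hu.trans hM)) (win m le_rfl hmM.le)
    (by simp; linarith) (by simp; linarith)
  rw [Int.cast_zero] at a2 a3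
  obtain ⟨w, b1, b2, b3, b4, b5, b6⟩ := up m M w1.prod.a (win m le_rfl hmM.le)
    (win M hmM.le le_rfl) (abs_le.2 ⟨by linarith, by linarith⟩) (by linarith)
  obtain ⟨w3, f1, f2, f3, -, f5, f6⟩ := dn M u.1 (w1.prod.a + w.prod.a) (win M hmM.le le_rfl)
    (win _ (hm.trans hu) hM) (by push_cast; exact abs_le.2 ⟨by linarith, by linarith⟩)
    (by push_cast; linarith)
  rw [Int.cast_add] at f2 f3
  rw [← intervalIntegral.integral_symm] at a5 f5
  have n1 : 0 ≤ ∫ x in m..M, (((D.A (D.idx (ev φ 0 x))).a : ℝ))⁻¹ :=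
    intervalIntegral.integral_nonneg hmM.le fun x _ => (inv_pos.2 (hA0 _)).le
  have n2 : 0 ≤ ∫ x in m..0, (((D.A (D.idx (-ev φ 0 x))).a : ℝ))⁻¹ :=
    intervalIntegral.integral_nonneg hm fun x _ => (inv_pos.2 (hA0 _)).le
  have n3 : 0 ≤ ∫ x in u.1..M, (((D.A (D.idx (-ev φ 0 x))).a : ℝ))⁻¹ :=
    intervalIntegral.integral_nonneg hM fun x _ => (inv_pos.2 (hA0 _)).le
  have hT1 : T⁻¹ ≤ 1 := inv_le_one_of_one_le₀ hT
  obtain ⟨v, v1, v2⟩ := hA T w w1.prod.a Z mu hT b1 hZ fun z hz => by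
    have z1 := mul_le_mul_of_nonneg_left (hZ' z hz).1 hT0.le
    have z2 := mul_le_mul_of_nonneg_left (hZ' z hz).2 hT0.le
    obtain ⟨k, hk, e⟩ := b4 (T * z - w1.prod.a) (by linarith) (by linarith)
    refine ⟨le_max_of_le_left (win z (hZ' z hz).1 (hZ' z hz).2), le_max_of_le_right ?_, k, hk,
      le_of_eq_of_le (congrArg abs (by ring)) e⟩
    have := mul_le_mul_of_nonneg_left
      (single_le_sum (f := fun z => |mu z|) (fun z _ => abs_nonneg _) hz) hQ.le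
    rw [le_div_iff₀' hQ]
    linarith
  refine ⟨w1.prod, w3.prod, w, v, _, b1, v1, ?_, ?_, fun t t0 t1 => ?_, ?_⟩
  · have l1 : (len S w1.prod : ℝ) ≤ w1.length := by exact_mod_cast len_le_of_wd a1
    have l3 : (len S w3.prod : ℝ) ≤ w3.length := by exact_mod_cast len_le_of_wd f1
    have := mul_le_mul_of_nonneg_left hI hT0.le
    rw [hΨ, mul_add T (D.NN u), mul_inv_cancel₀ hT0.ne'] at this
    linarith
  · have k1 := mul_le_mul_of_nonneg_left (show -m ≤ Bn / D.lp 0 by linarith) hT0.le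
    have k2 : B ≤ B * T := le_mul_of_one_le_right (by linarith) hT
    have k3 : 0 ≤ (1 + 3 * CP + CA) * T := by positivity
    exact abs_le.2 ⟨by linarith, by linarith⟩
  · obtain ⟨k, hk, e⟩ := b4 t t0 (by linarith)
    rw [one_mul] at e
    exact ⟨k, hk, by linarith⟩
  · refine max_le ?_ ((pi_norm_le_iff_of_nonneg (by positivity)).2 fun j => ?_)
    · simp only [nx, Prod.fst_sub, Prod.smul_fst, smul_eq_mul, G.mul_a, zero_add, Int.cast_add,
        Real.norm_eq_abs]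
      exact abs_le.2 ⟨by linarith, by linarith⟩
    · have g1 := abs_le.1 (a6 j)
      have g2 : _ ∧ _ := abs_le.1 (show |_ - T * ∫ x in m..M, D.kp (ev φ 0 x) * Vd 0 x j| ≤ _
        from b6 j)
      have g3 := abs_le.1 (f6 j)
      have g4 := abs_le.1 (v2 j)
      rw [sh_zero, intervalIntegral.integral_symm] at g1
      rw [intervalIntegral.integral_symm] at g3
      simp only [nx, Prod.snd_sub, Prod.smul_snd, Pi.sub_apply, Pi.smul_apply, smul_eq_mul, G.mul_a,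
        G.mul_y, zero_add, sh_zero, sh_add, Pi.add_apply, Int.cast_add, add_div, Real.norm_eq_abs,
        hy j]
      exact abs_le.2 ⟨by linarith [g1.1, g2.1, g3.1, g4.1], by linarith [g1.2, g2.2, g3.2, g4.2]⟩

end Pool.Agent.P.MP_a0f0ad_al.Fi
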