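import Pool.Agent.P.MP_a0f0ad_al.Fi.W.Iface2

/-! Step WELL of the filiform project. -/

namespace Pool.Agent.P.MP_a0f0ad_al.Fi

open Finset MeasureTheory

namespace WellA

variable {d : ℕ}

theorem le_ell (u : E d) (j : Fin d) (hj : (j : ℕ) ≠ 0) :
    |u.2 j| ^ (((j : ℕ) : ℝ)⁻¹) ≤ ell u := by
  refine le_trans ?_ (le_max_right _ _)
  refine le_trans ?_ (le_ciSup (Finite.bddAbove_range _) j)
  simp [hj]

theorem ell_nonneg (u : E d) : 0 ≤ ell u := (abs_nonneg _).trans (le_max_left _ _)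

theorem abs_le_ell (u : E d) (j : Fin d) (hj : (j : ℕ) ≠ 0) : |u.2 j| ≤ ell u ^ (j : ℕ) := by
  have h := pow_le_pow_left₀ (by positivity) (le_ell u j hj) (j : ℕ)
  rwa [Real.rpow_inv_natCast_pow (abs_nonneg _) hj] at h

theorem ell_cases (u : E d) :
    ell u = |u.1| ∨ ∃ j : Fin d, 1 ≤ (j : ℕ) ∧ ell u ^ (j : ℕ) = |u.2 j| := by
  rcases max_cases |u.1|
    (⨆ j : Fin d, if (j : ℕ) = 0 then (0 : ℝ) else |u.2 j| ^ (((j : ℕ) : ℝ)⁻¹)) with h1 | h1
  · exact Or.inl h1.1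
  · have hp := (abs_nonneg u.1).trans_lt h1.2
    rcases isEmpty_or_nonempty (Fin d) with h | h
    · rw [Real.iSup_of_isEmpty] at hp
      exact absurd hp (lt_irrefl _)
    obtain ⟨j, hj⟩ := exists_eq_ciSup_of_finite
      (f := fun j : Fin d => if (j : ℕ) = 0 then (0 : ℝ) else |u.2 j| ^ (((j : ℕ) : ℝ)⁻¹))
    have e1 : ell u = if (j : ℕ) = 0 then (0 : ℝ) else |u.2 j| ^ (((j : ℕ) : ℝ)⁻¹) := by
      rw [hj]; exact h1.1
    have hj0 : (j : ℕ) ≠ 0 := by
      intro h0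
      rw [← hj, if_pos h0] at hp
      exact absurd hp (lt_irrefl _)
    rw [if_neg hj0] at e1
    refine Or.inr ⟨j, Nat.one_le_iff_ne_zero.2 hj0, ?_⟩
    rw [e1]
    exact Real.rpow_inv_natCast_pow (abs_nonneg _) hj0

theorem abs_fst (u : E d) : |u.1| ≤ ‖u‖ := by
  have := norm_fst_le u
  rwa [Real.norm_eq_abs] at this

theorem abs_snd (u : E d) (j : Fin d) : |u.2 j| ≤ ‖u‖ := by
  have := (norm_le_pi_norm u.2 j).trans (norm_snd_le u)
  rwa [Real.norm_eq_abs] at this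

theorem ell_le (u : E d) : ell u ≤ max 1 ‖u‖ := by
  rcases ell_cases u with h | ⟨j, hj, h⟩
  · exact h.trans_le ((abs_fst u).trans (le_max_right _ _))
  · rcases le_total (ell u) 1 with h1 | h1
    · exact h1.trans (le_max_left _ _)
    · exact ((le_self_pow₀ h1 (by omega)).trans (h.trans_le (abs_snd u j))).trans
        (le_max_right _ _)

theorem le_of_pow (u : E d) (j : Fin d) (s : ℝ) (hj : 1 ≤ (j : ℕ)) (hs : 0 ≤ s)
    (h : s ^ (j : ℕ) ≤ |u.2 j|) : s ≤ ell u :=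
  (pow_le_pow_iff_left₀ hs (ell_nonneg u) (by omega)).1 (h.trans (abs_le_ell u j (by omega)))

theorem small {l m r : ℝ} {k : ℕ} (hl : 0 ≤ l) (hm : 1 ≤ m) (hlm : l ≤ m) (hk : k ≤ d)
    (h : 2 * m ^ d * r ≤ l ^ d) : 2 * r ≤ l ^ k := by
  have h1 : l ^ d ≤ l ^ k * m ^ d := by
    obtain ⟨n, rfl⟩ := Nat.exists_eq_add_of_le hk
    rw [pow_add l]
    refine mul_le_mul_of_nonneg_left ?_ (pow_nonneg hl _)
    exact (pow_le_pow_left₀ hl hlm n).trans (pow_le_pow_right₀ hm (by omega))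
  have h2 : 0 < m ^ d := by positivity
  refine le_of_mul_le_mul_right ?_ h2
  linarith

end WellA

open WellA in
theorem p_WELL :
    S_WELL := by
  intro d u
  refine ⟨le_max_left _ _, ell_le u, ell_cases u, le_of_pow u, fun u' hd h => ?_⟩
  have h0 := ell_nonneg u
  rcases ell_cases u with e | ⟨j, hj, e⟩
  · have h1 := small h0 (le_max_left _ _) (ell_le u) hd h
    have h2 : |u'.1 - u.1| ≤ ‖u' - u‖ := abs_fst (u' - u)
    have h3 := abs_sub_abs_le_abs_sub u.1 u'.1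
    have h4 : |u'.1| ≤ ell u' := le_max_left _ _
    rw [abs_sub_comm] at h3
    rw [pow_one] at h1
    linarith
  · have h1 := small h0 (le_max_left _ _) (ell_le u) j.2.le h
    have h2 : |u'.2 j - u.2 j| ≤ ‖u' - u‖ := abs_snd (u' - u) j
    have h3 := abs_sub_abs_le_abs_sub (u.2 j) (u'.2 j)
    rw [abs_sub_comm] at h3
    have h4 : (ell u / 2) ^ (j : ℕ) ≤ ell u ^ (j : ℕ) / 2 := by
      rw [div_pow]
      refine div_le_div_of_nonneg_left (pow_nonneg h0 _) two_pos ?_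
      exact le_self_pow₀ one_le_two (by omega)
    have h5 := le_of_pow u' j (ell u / 2) hj (by linarith) (by linarith)
    linarith

end Pool.Agent.P.MP_a0f0ad_al.Fi
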