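import Pool.Agent.P.MP_a0f0ad_al.Fi.W.Iface2
import Pool.Agent.P.MP_a0f0ad_al.Fi.W.Fill

/-! Step WFILL of the filiform project. -/

namespace Pool.Agent.P.MP_a0f0ad_al.Fi

open Finset MeasureTheory

namespace WfillA

open FillA

theorem sh_mv (d : ℕ) (a i : ℤ) : sh a (mv d i) = mv d (a + i) := by
  funext j
  have h := sh_aux d j 0 j.2 a i
  simp only [Nat.choose_zero_right, Nat.cast_one, one_mul, Nat.sub_zero] at h
  simp only [sh, mv]
  rw [← h, ← Fin.sum_univ_eq_sum_range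
    (fun l => (((j : ℕ).choose l : ℕ) : ℤ) * a ^ ((j : ℕ) - l) * i ^ l)]

theorem sum_le {d : ℕ} {B : ℝ} {y : Fin d → ℤ} (h : ∀ j, |(y j : ℝ)| ≤ B) :
    ∑ j, |(y j : ℝ)| ≤ d * B :=
  (sum_le_sum fun j _ => h j).trans (by simp)

theorem mv_le {d : ℕ} {B : ℝ} {i : ℤ} (h : |(i : ℝ)| ≤ B) (j : Fin d) :
    |(mv d i j : ℝ)| ≤ max 1 B ^ d := by
  simp only [mv, Int.cast_pow, abs_pow]
  exact (pow_le_pow_left₀ (abs_nonneg _) (h.trans (le_max_right 1 B)) _).trans
    (pow_le_pow_right₀ (le_max_left 1 B) j.2.le)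

theorem single_le {d : ℕ} (B : ℝ) (i j : Fin d) :
    |((Pi.single i 1 : Fin d → ℤ) j : ℝ)| ≤ max 1 B ^ d := by
  have := one_le_pow₀ (n := d) (le_max_left 1 B)
  rw [Pi.single_apply]
  split_ifs
  · simpa using this
  · simpa using zero_le_one.trans this

end WfillA

open WfillA FillA in
theorem p_WFILL (hWINS : S_WINS) (hWLEN : S_WLEN) :
    S_WFILL := by
  intro d S B _ hS
  obtain ⟨C0, h0⟩ := fill d
  obtain ⟨CL, hL, -, hy, -⟩ := hWLEN d S hS
  have hc : 0 ≤ CL * (d * max 1 B ^ d) := by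
    have : (0 : ℝ) ≤ max 1 B := zero_le_one.trans (le_max_left _ _)
    have : 0 ≤ CL := zero_le_one.trans hL
    positivity
  refine ⟨CL * (d * max 1 B ^ d) * C0 + 1, by positivity, fun w H ρ r hw hH hρ hk hr => ?_⟩
  obtain ⟨i1, i2, i3, i4, -⟩ := hWINS d S w hS hw
  have key : ∀ k ≤ w.length, ∀ z : Fin d → ℤ, (∀ j, |(z j : ℝ)| ≤ max 1 B ^ d) →
      Ins S w (CL * (d * max 1 B ^ d)) (sh (ht w k) z) ∧
      Ins S w (CL * (d * max 1 B ^ d)) (-sh (ht w k) z) := fun k hk z hz =>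
    ⟨i3 _ _ _ (i4 k hk z) ((hy z).trans
      (mul_le_mul_of_nonneg_left (sum_le hz) (zero_le_one.trans hL))),
      sh_neg _ z ▸ i3 _ _ _ (i4 k hk (-z)) ((hy (-z)).trans
      (mul_le_mul_of_nonneg_left (sum_le fun j => by simpa using hz j) (zero_le_one.trans hL)))⟩
  have gen : ∀ x, Gen d (d * H) x → Ins S w (CL * (d * max 1 B ^ d)) x := by
    rintro x (⟨h, hh, hx⟩ | ⟨j, hx⟩)
    · obtain ⟨k, k1, k2⟩ := hk h hh
      have := key k k1 (mv d (h - ht w k)) (mv_le (by rw [abs_sub_comm] at k2; exact_mod_cast k2))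
      rw [sh_mv, add_sub_cancel] at this
      rcases hx with rfl | rfl
      exacts [this.1, this.2]
    · have := key 0 (Nat.zero_le _) (Pi.single j 1) (single_le B j)
      rw [show ht w 0 = 0 by simp [ht], sh_zero] at this
      rcases hx with rfl | rfl
      exacts [this.1, this.2]
  have main : ∀ L : List (Fin d → ℤ), (∀ x ∈ L, Gen d (d * H) x) →
      Ins S w (CL * (d * max 1 B ^ d) * L.length) L.sum := by
    intro L
    induction L with
    | nil => intro _; simpa using i1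
    | cons x L ih =>
      intro h
      refine i3 _ _ _ (i2 _ _ _ _ (gen x (h x (by simp))) (ih fun y hy => h y (by simp [hy])))
        (le_of_eq ?_)
      simp only [List.length_cons]
      push_cast
      ring
  obtain ⟨L, l1, l2, rfl⟩ := h0 H ρ hH hρ r hr
  refine i3 _ _ _ (main L l2) ?_
  have l3 : (L.length : ℝ) ≤ C0 * ρ := by exact_mod_cast l1
  have := mul_le_mul_of_nonneg_left l3 hc
  have : (0 : ℝ) ≤ ρ := Nat.cast_nonneg _
  nlinarith

end Pool.Agent.P.MP_a0f0ad_al.Fi
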