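import Pool.Agent.P.MP_a0f0ad_al.Fi.W.Iface2
import Pool.Agent.P.MP_a0f0ad_al.Fi.Z.Bg

/-! Step WINS of the filiform project. -/

namespace Pool.Agent.P.MP_a0f0ad_al.Fi

open Finset MeasureTheory

namespace WinsA

variable {d : ℕ} {S : Finset (G d)}

theorem zero (S : Finset (G d)) : len S (⟨0, 0⟩ : G d) = 0 := len_one S

theorem add (hS : Sym S) (z z' : Fin d → ℤ) :
    len S (⟨z + z', 0⟩ : G d) ≤ len S (⟨z, 0⟩ : G d) + len S (⟨z', 0⟩ : G d) := by
  have e : (⟨z + z', 0⟩ : G d) = ⟨z, 0⟩ * ⟨z', 0⟩ := G.ext (by simp [sh_zero]) (by simp)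
  rw [e]; exact hS.len_mul _ _

theorem mv (s z : Fin d → ℤ) (p : G d) :
    (⟨s + sh p.a z, 0⟩ : G d) * p = ⟨s, 0⟩ * p * ⟨z, 0⟩ :=
  G.ext (by simp [sh_zero]; abel) (by simp)

theorem main (hS : Sym S) {w : List (G d)} (hw : Wd S w) (z : ℕ → Fin d → ℤ) (n : ℕ)
    (hn : n ≤ w.length) :
    len S ((⟨∑ k ∈ range (n + 1), sh (ht w k) (z k), 0⟩ : G d) * (w.take n).prod) ≤
      n + ∑ k ∈ range (n + 1), len S (⟨z k, 0⟩ : G d) := by
  induction n with
  | zero => simp [ht, sh_zero]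
  | succ n ih =>
    have a := ih (by omega)
    rw [sum_range_succ _ (n + 1), sum_range_succ _ (n + 1), ht, mv, take_prod_succ, ← mul_assoc]
    have b := hS.len_mul ((⟨∑ k ∈ range (n + 1), sh (ht w k) (z k), 0⟩ : G d) *
      (w.take n).prod * lt w n) ⟨z (n + 1), 0⟩
    have c := hS.len_mul ((⟨∑ k ∈ range (n + 1), sh (ht w k) (z k), 0⟩ : G d) *
      (w.take n).prod) (lt w n)
    have e := len_mem (hw.lt_mem (k := n) (by omega))
    omega

end WinsA

open WinsA in
theorem p_WINS :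
    S_WINS := by
  intro d S w hS hw
  refine ⟨⟨fun _ => 0, by simp [sh_zero_right], by simp [zero]⟩, ?_, ?_, ?_, ?_⟩
  · rintro c c' v v' ⟨z, h2, h1⟩ ⟨z', h2', h1'⟩
    refine ⟨fun k => z k + z' k, ?_, le_trans ?_ (add_le_add h1 h1')⟩
    · simp only [sh_add, sum_add_distrib, h2, h2']
    · rw [← sum_add_distrib]
      exact sum_le_sum fun k _ => by exact_mod_cast add hS (z k) (z' k)
  · rintro c c' v ⟨z, h2, h1⟩ h
    exact ⟨z, h2, h1.trans h⟩
  · intro k hk z
    have m : k ∈ range (w.length + 1) := mem_range.2 (by omega)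
    refine ⟨fun k' => if k' = k then z else 0, ?_, ?_⟩
    · rw [sum_eq_single_of_mem k m fun b _ hb => by simp [hb, sh_zero_right]]
      simp
    · rw [sum_eq_single_of_mem k m fun b _ hb => by simp [hb, zero]]
      simp
  · rintro c v ⟨z, h2, h1⟩
    have a := main hS hw z w.length le_rfl
    rw [List.take_length] at a
    have b := (Nat.cast_le (α := ℝ)).2 a
    push_cast at b
    subst h2
    linarith

end Pool.Agent.P.MP_a0f0ad_al.Fi
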