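import Pool.Agent.P.MP_a0f0ad_al.Fi.W.Iface2
import Pool.Agent.P.MP_a0f0ad_al.Fi.V.Iface
import Pool.Agent.P.MP_a0f0ad_al.Fi.W.Iface
import Pool.Agent.P.MP_a0f0ad_al.Fi.Z.Bm

/-! Step WLB of the filiform project. -/

namespace Pool.Agent.P.MP_a0f0ad_al.Fi

open Finset MeasureTheory

namespace WlbA

variable {d : ℕ} {S : Finset (G d)} {D : LD d}

theorem int_le {f : ℝ → ℝ} {m M s t B δ : ℝ} (hB : 0 ≤ B) (hf : ∀ x ∈ Set.Icc m M, |f x| ≤ B)
    (hs : s ∈ Set.Icc m M) (ht : t ∈ Set.Icc m M) (hδ : |t - s| ≤ δ) :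
    ∫ x in s..t, f x ≤ B * δ := by
  have h := intervalIntegral.norm_integral_le_of_norm_le_const (f := f) (a := s) (b := t) (C := B)
    fun x hx => hf x (Set.uIcc_subset_Icc hs ht (Set.uIoc_subset_uIcc hx))
  exact (le_abs_self _).trans (h.trans (mul_le_mul_of_nonneg_left hδ hB))

/-- the dual functional changes little with the end point and the upper end of the range -/
theorem cmp (h : D.Spec S) {B m M M' δ : ℝ} {q : Fin d → ℝ} {u v : E d} (hB : 0 ≤ B)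
    (hb : ∀ x, |x| ≤ D.Q + 1 → |D.lp x| ≤ B) (hq : D.Feas q m M') (hM : M ∈ Set.Icc m M')
    (hu : u.1 ∈ Set.Icc m M') (hv : v.1 ∈ Set.Icc m M') (h1 : M' - M ≤ δ) (h2 : ‖u - v‖ ≤ δ) :
    D.Bf q m M' u ≤ D.Bf q m M v + (d * ‖q‖ + 3 * B) * δ := by
  have c1 : Continuous fun x => D.lp (ev q 0 x) := h.continuous_lp.comp (continuous_ev q 0)
  have c2 : Continuous fun x => D.lp (-ev q 0 x) := h.continuous_lp.comp (continuous_ev q 0).neg
  have b1 : ∀ x ∈ Set.Icc m M', |D.lp (ev q 0 x)| ≤ B := fun x hx =>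
    hb _ (by linarith [hq x hx])
  have b2 : ∀ x ∈ Set.Icc m M', |D.lp (-ev q 0 x)| ≤ B := fun x hx =>
    hb _ (by rw [abs_neg]; linarith [hq x hx])
  have hM' : M' ∈ Set.Icc m M' := ⟨hM.1.trans hM.2, le_rfl⟩
  have a1 : |M' - M| ≤ δ := by rwa [abs_of_nonneg (sub_nonneg.2 hM.2)]
  have a2 : |v.1 - u.1| ≤ δ := by
    rw [abs_sub_comm]
    exact (norm_fst_le (u - v)).trans h2
  have i1 := int_le hB b1 hM hM' a1
  have i2 := int_le hB b2 hM hM' a1
  have i3 := int_le hB b2 hu hv a2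
  have e1 := intervalIntegral.integral_add_adjacent_intervals (c1.intervalIntegrable m M)
    (c1.intervalIntegrable (μ := volume) M M')
  have e2 := intervalIntegral.integral_add_adjacent_intervals (c2.intervalIntegrable v.1 M)
    (c2.intervalIntegrable (μ := volume) M M')
  have e3 := intervalIntegral.integral_add_adjacent_intervals (c2.intervalIntegrable u.1 v.1)
    (c2.intervalIntegrable (μ := volume) v.1 M')
  have e4 : dot q u.2 - dot q v.2 ≤ d * ‖q‖ * δ := by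
    rw [← dot_sub_right]
    exact (le_abs_self _).trans ((abs_dot_le _ _).trans
      (mul_le_mul_of_nonneg_left ((norm_snd_le (u - v)).trans h2) (by positivity)))
  unfold LD.Bf
  linarith

theorem ht_le {w : List (G d)} {C : ℝ} (hw : Wd S w) (hC : 0 ≤ C)
    (h : ∀ s ∈ S, |(s.a : ℝ)| ≤ C) {k : ℕ} (hk : k ≤ w.length) :
    |(ht w k : ℝ)| ≤ C * w.length := by
  rw [ht_eq_sum, Int.cast_sum]
  refine (abs_sum_le_sum_abs _ _).trans ((sum_le_card_nsmul _ _ C fun l hl =>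
    h _ (hw.lt_mem ((mem_range.1 hl).trans_le hk))).trans ?_)
  rw [card_range, nsmul_eq_mul, mul_comm]
  exact mul_le_mul_of_nonneg_left (by exact_mod_cast hk) hC

theorem one_le (hWELL : S_WELL) {u : E d} {L : ℝ} (hL : ‖u‖ ≤ L) (he : 0 < ell u) :
    1 ≤ max 1 L ^ d / ell u ^ d := by
  rw [one_le_div (pow_pos he d)]
  exact pow_le_pow_left₀ he.le ((hWELL d u).2.1.trans (max_le_max le_rfl hL)) d

/-- the accounting, for both orders of the extreme heights -/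
theorem acc (hACC : S_ACC) (h : D.Spec S) (L : ℝ) : ∃ C : ℝ, 0 ≤ C ∧
    ∀ (T : ℝ) (w : List (G d)) (q : Fin d → ℝ) (τ1 τ2 : ℕ), 1 ≤ T → Wd S w →
      (w.length : ℝ) ≤ L * T → 0 ≤ w.prod.a → τ1 ≤ w.length → τ2 ≤ w.length →
      (∀ k ≤ w.length, ht w τ1 ≤ ht w k ∧ ht w k ≤ ht w τ2) →
      D.Feas q (ht w τ1 / T) (ht w τ2 / T) →
      T * D.Bf q (ht w τ1 / T) (ht w τ2 / T) (T⁻¹ • nx T w.prod) ≤ w.length + C * ‖q‖ := by
  obtain ⟨C, hC⟩ := hACC d S D L h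
  obtain ⟨c, hc, -, hom, -⟩ := h.exists_slack
  refine ⟨2 * |C|, by positivity, fun T w q τ1 τ2 hT hw hl ha h1 h2 hx hq => ?_⟩
  obtain ⟨k1, k2, k3⟩ := hC T w q τ1 τ2 hT hw hl ha h1 h2 hx hq
  have hT0 : 0 < T := by linarith
  have b1 : C * ‖q‖ ≤ |C| * ‖q‖ := mul_le_mul_of_nonneg_right (le_abs_self _) (norm_nonneg _)
  have b0 : 0 ≤ |C| * ‖q‖ := by positivity
  rcases le_total τ1 τ2 with o | o
  · obtain ⟨k4, k5⟩ := k2 o
    have b2 : C * ‖q‖ / T ≤ |C| * ‖q‖ :=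
      (div_le_div_of_nonneg_right b1 hT0.le).trans (div_le_self b0 hT)
    linarith [(abs_le.1 k5).1, (abs_le.1 k1).2]
  · have a0 : (0 : ℝ) ≤ w.prod.a := by exact_mod_cast ha
    have a1 : (ht w τ1 : ℝ) ≤ 0 := by
      have := (hx 0 (Nat.zero_le _)).1
      rw [ht_zero] at this
      exact_mod_cast this
    have a2 : (w.prod.a : ℝ) ≤ ht w τ2 := by
      have := (hx _ le_rfl).2
      rw [ht_length] at this
      exact_mod_cast this
    have i0 : 0 ≤ ∫ x in (0 : ℝ)..(w.prod.a / T), D.om (ev q 0 x) := by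
      refine intervalIntegral.integral_nonneg (by positivity) fun x hx => ?_
      have := hq x ⟨(div_nonpos_of_nonpos_of_nonneg a1 hT0.le).trans hx.1,
        hx.2.trans (div_le_div_of_nonneg_right a2 hT0.le)⟩
      exact (mul_nonneg hc.le (sub_nonneg.2 this)).trans (hom _ this)
    linarith [k3 o, mul_nonneg hT0.le i0]

/-- the lower bound for elements of nonnegative height -/
theorem step (hMARK : S_MARK) (hPEN : S_PEN) (hHOM : S_HOM) (hACC : S_ACC) (hWLEN : S_WLEN)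
    (hWELL : S_WELL) (hWNB : S_WNB) (hWRNG : S_WRNG) (L : ℝ) (hd : 2 ≤ d) (h : D.Spec S) :
    ∃ C : ℝ, 0 < C ∧ ∀ u : E d, 0 ≤ u.1 → ‖u‖ ≤ L → 0 < ell u → ∀ T : ℝ, 1 ≤ T → ∀ g : G d,
      0 ≤ g.a → T * D.NN u ≤ len S g + C / ell u ^ d * (1 + ‖nx T g - T • u‖) := by
  obtain ⟨Bn, hBn, hNB⟩ := hWNB d S D L h
  obtain ⟨CL, hCL, -, -, hlet⟩ := hWLEN d S h.sym
  obtain ⟨c, hc, hR⟩ := hWRNG d S (max L Bn) (by omega) h.sym
  obtain ⟨CM, hCM, hM⟩ := hMARK d (max L (CL * Bn))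
  obtain ⟨CA, hCA, hA⟩ := acc hACC h Bn
  obtain ⟨B, hB, -, -, -, -, hb, -⟩ := h.exists_bound
  have hQ := h.Qpos
  have hK : 0 < max 1 L ^ d := by positivity
  refine ⟨Bn / c + (CA + d) * (CM * D.Q / c ^ d) + 3 * B * max 1 L ^ d, by positivity,
    fun u hu hL he T hT g hg => ?_⟩
  have hT0 : 0 < T := by linarith
  have hE : 0 < ell u ^ d := pow_pos he d
  have k1 := one_le hWELL hL he
  have hN : T * D.NN u ≤ Bn * T := by
    rw [mul_comm]
    exact mul_le_mul_of_nonneg_right (hNB u hu hL) hT0.le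
  obtain ⟨Δ, hΔ⟩ : ∃ Δ, Δ = ‖nx T g - T • u‖ := ⟨_, rfl⟩
  have hΔ0 : 0 ≤ Δ := hΔ ▸ norm_nonneg _
  rw [← hΔ, add_div, add_div, add_mul, add_mul]
  have p1 : 0 ≤ Bn / c / ell u ^ d * (1 + Δ) := by positivity
  have p2 : 0 ≤ (CA + d) * (CM * D.Q / c ^ d) / ell u ^ d * (1 + Δ) := by positivity
  have p3 : 0 ≤ 3 * B * max 1 L ^ d / ell u ^ d * (1 + Δ) := by positivity
  have p4 : (0 : ℝ) ≤ len S g := Nat.cast_nonneg _
  rcases le_total (Bn * T) (len S g) with hl | hl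
  · linarith
  rcases le_total (c * T * ell u ^ d) (1 + Δ) with hs | hs
  · have : Bn * T ≤ Bn / c / ell u ^ d * (1 + Δ) :=
      calc Bn * T = Bn / c / ell u ^ d * (c * T * ell u ^ d) := by field_simp
        _ ≤ _ := mul_le_mul_of_nonneg_left hs (by positivity)
    linarith
  obtain ⟨w, ⟨hw, hlen⟩, rfl⟩ := h.sym.exists_geo g
  rw [← hlen] at hl ⊢
  obtain ⟨τ1, t1, m1⟩ := exists_min_image (range (w.length + 1)) (ht w) ⟨0, by simp⟩
  obtain ⟨τ2, t2, m2⟩ := exists_max_image (range (w.length + 1)) (ht w) ⟨0, by simp⟩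
  rw [mem_range, Nat.lt_succ_iff] at t1 t2
  have hx : ∀ k ≤ w.length, ht w τ1 ≤ ht w k ∧ ht w k ≤ ht w τ2 := fun k hk =>
    ⟨m1 k (mem_range.2 (Nat.lt_succ_of_le hk)), m2 k (mem_range.2 (Nat.lt_succ_of_le hk))⟩
  have r1 := hR u T w (ht w τ1) (ht w τ2) hu (hL.trans (le_max_left _ _)) he hT hw
    (hl.trans (mul_le_mul_of_nonneg_right (le_max_right _ _) hT0.le)) (hΔ ▸ hs)
    fun k hk => ⟨by exact_mod_cast (hx k hk).1, by exact_mod_cast (hx k hk).2⟩
  have hA' := fun q => hA T w q τ1 τ2 hT hw hl hg t1 t2 hx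
  have a1 : (ht w τ1 : ℝ) / T ≤ 0 := by
    have := (hx 0 (Nat.zero_le _)).1
    rw [ht_zero] at this
    exact div_nonpos_of_nonpos_of_nonneg (by exact_mod_cast this) hT0.le
  have a2 : (w.prod.a : ℝ) / T ≤ ht w τ2 / T := by
    have := (hx _ le_rfl).2
    rw [ht_length] at this
    exact div_le_div_of_nonneg_right (by exact_mod_cast this) hT0.le
  have a0 : (0 : ℝ) ≤ w.prod.a / T := div_nonneg (by exact_mod_cast hg) hT0.le
  have hb' : ∀ k ≤ w.length, |(ht w k : ℝ) / T| ≤ max L (CL * Bn) := fun k hk => by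
    refine le_trans ?_ (le_max_right _ _)
    rw [abs_div, abs_of_pos hT0, div_le_iff₀ hT0, mul_assoc]
    exact (ht_le hw (by linarith) (fun s hs => (hlet s hs).1) hk).trans
      (mul_le_mul_of_nonneg_left hl (by linarith))
  have r2 : c * ell u ≤ max ((ht w τ2 : ℝ) / T) u.1 - ht w τ1 / T := by
    refine le_of_mul_le_mul_right (r1.trans_eq ?_) hT0
    rw [sub_mul, max_mul_of_nonneg _ _ hT0.le, div_mul_cancel₀ _ hT0.ne', div_mul_cancel₀ _ hT0.ne',
      mul_comm u.1]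
  have b1 := hb' τ1 t1
  have b2 := hb' τ2 t2
  generalize (ht w τ1 : ℝ) / T = m at a1 r2 b1 hA'
  generalize (ht w τ2 : ℝ) / T = M at a2 r2 b2 hA'
  have hce : 0 < c * ell u := mul_pos hc he
  have hlt : m < max M u.1 := by linarith
  obtain ⟨q, hq, hq'⟩ := (hPEN d S D h m _ u a1 hu (le_max_right M _) hlt).2 0 0 le_rfl
  rw [zero_smul, sub_zero] at hq'
  have n1 : D.NN u ≤ D.Bf q m (max M u.1) u :=
    ((hHOM d S D h).2.2.1 u m _ a1 hu (le_max_right M _) hlt).1.trans hq'.ge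
  have n2 : ‖q‖ ≤ CM * D.Q / c ^ d / ell u ^ d := by
    have := (hM q m _ D.Q hlt (abs_le.1 b1).1 (max_le (abs_le.1 b2).2
      (((le_abs_self _).trans (norm_fst_le u)).trans (hL.trans (le_max_left _ _)))) hq).1
    rw [div_div, ← mul_pow, le_div_iff₀ (pow_pos hce d)]
    exact (mul_le_mul_of_nonneg_left (pow_le_pow_left₀ hce.le r2 d) (norm_nonneg _)).trans this
  have n3 := hA' q fun x hx => hq x ⟨hx.1, hx.2.trans (le_max_left _ _)⟩
  have e1 : (T⁻¹ • nx T w.prod).1 = w.prod.a / T := by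
    rw [div_eq_inv_mul]
    rfl
  have e2 : ‖u - T⁻¹ • nx T w.prod‖ ≤ Δ / T := by
    have : u - T⁻¹ • nx T w.prod = -T⁻¹ • (nx T w.prod - T • u) := by
      rw [smul_sub, smul_smul, neg_mul, inv_mul_cancel₀ hT0.ne', neg_smul, neg_smul, one_smul]
      abel
    rw [this, norm_smul, norm_neg, norm_inv, Real.norm_of_nonneg hT0.le, ← hΔ, div_eq_inv_mul]
  have e3 : max M u.1 - M ≤ Δ / T := by
    have := (le_abs_self _).trans ((norm_fst_le (u - T⁻¹ • nx T w.prod)).trans e2)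
    rw [Prod.fst_sub, e1] at this
    have h0 : 0 ≤ Δ / T := by positivity
    rcases le_total M u.1 with o | o
    · rw [max_eq_right o]
      linarith
    · rw [max_eq_left o]
      linarith
  have n4 := cmp h (v := T⁻¹ • nx T w.prod) (by linarith) hb hq
    ⟨a1.trans (a0.trans a2), le_max_left _ _⟩ ⟨a1.trans hu, le_max_right _ _⟩
    (by rw [e1]; exact ⟨a1.trans a0, a2.trans (le_max_left _ _)⟩) e3 e2
  have n5 : T * D.NN u ≤ w.length + CA * ‖q‖ + (d * ‖q‖ + 3 * B) * Δ := by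
    have := mul_le_mul_of_nonneg_left (n1.trans n4) hT0.le
    rw [mul_add, mul_left_comm, mul_div_cancel₀ _ hT0.ne'] at this
    linarith
  have n6 : (CA + d) * ‖q‖ * (1 + Δ) ≤ (CA + d) * (CM * D.Q / c ^ d) / ell u ^ d * (1 + Δ) := by
    rw [mul_div_assoc]
    gcongr
  have n7 : 3 * B * 1 * (1 + Δ) ≤ 3 * B * max 1 L ^ d / ell u ^ d * (1 + Δ) := by
    rw [mul_div_assoc]
    gcongr
  have q1 : 0 ≤ CA * ‖q‖ * Δ := by positivity
  have q2 : 0 ≤ d * ‖q‖ := by positivity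
  nlinarith

end WlbA

theorem p_WLB (hMARK : S_MARK) (hPEN : S_PEN) (hHOM : S_HOM) (hACC : S_ACC) (hWLEN : S_WLEN) (hWELL : S_WELL) (hWNB : S_WNB) (hWRNG : S_WRNG) :
    S_WLB := by
  intro d S D L hd h
  obtain ⟨C, hC, H⟩ := WlbA.step hMARK hPEN hHOM hACC hWLEN hWELL hWNB hWRNG L hd h
  obtain ⟨CL, hCL, hlen, -⟩ := hWLEN d S h.sym
  have hK : 0 < max 1 L ^ d := by positivity
  refine ⟨C + CL * max 1 L ^ d, by positivity, fun u hu hL he T hT g => ?_⟩
  have hE : 0 < ell u ^ d := pow_pos he d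
  have k1 := WlbA.one_le hWELL hL he
  have hΔ := norm_nonneg (nx T g - T • u)
  rw [add_div, add_mul]
  have p1 : CL * 1 * (1 + ‖nx T g - T • u‖) ≤
      CL * max 1 L ^ d / ell u ^ d * (1 + ‖nx T g - T • u‖) := by
    rw [mul_div_assoc]
    gcongr
  rcases le_total 0 g.a with ha | ha
  · nlinarith [H u hu hL he T hT g ha]
  · have ha' : (g.a : ℝ) ≤ 0 := by exact_mod_cast ha
    have hTu : 0 ≤ T * u.1 := mul_nonneg (by linarith) hu
    have f1 : T * u.1 - g.a ≤ ‖nx T g - T • u‖ := by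
      have := (neg_le_abs _).trans (norm_fst_le (nx T g - T • u))
      rwa [Prod.fst_sub, neg_sub] at this
    have f2 : ‖nx T (g * ⟨0, -g.a⟩) - T • u‖ ≤ ‖nx T g - T • u‖ := by
      rw [Prod.norm_def]
      refine max_le ?_ (le_trans (le_of_eq ?_) (norm_snd_le _))
      · have : (nx T (g * (⟨0, -g.a⟩ : G d)) - T • u).1 = -(T * u.1) := by simp [nx]
        rw [this, norm_neg, Real.norm_of_nonneg hTu]
        linarith
      · simp [nx, sh_zero_right]
    have f3 : (len S (g * ⟨0, -g.a⟩) : ℝ) ≤ len S g + CL * ‖nx T g - T • u‖ := by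
      have h1 : (len S (g * ⟨0, -g.a⟩) : ℝ) ≤ len S g + len S (⟨0, -g.a⟩ : G d) := by
        exact_mod_cast h.sym.len_mul g _
      have h2 := hlen (-g.a)
      rw [Int.cast_neg, abs_neg, abs_of_nonpos ha'] at h2
      nlinarith
    have f4 := H u hu hL he T hT (g * ⟨0, -g.a⟩) (by simp)
    have f5 : C / ell u ^ d * (1 + ‖nx T (g * ⟨0, -g.a⟩) - T • u‖) ≤
        C / ell u ^ d * (1 + ‖nx T g - T • u‖) := by gcongr
    nlinarith

end Pool.Agent.P.MP_a0f0ad_al.Fi
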