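import Pool.Agent.P.MP_a0f0ad_al.Fi.W.Iface2
import Pool.Agent.P.MP_a0f0ad_al.Fi.Z.Bg

/-! Step WLEN of the filiform project. -/

namespace Pool.Agent.P.MP_a0f0ad_al.Fi

open Finset MeasureTheory

namespace WlenA

variable {d : ℕ} {S : Finset (G d)}

theorem len_zpow (hS : Sym S) (g : G d) (k : ℤ) :
    (len S (g ^ k) : ℝ) ≤ len S g * |(k : ℝ)| := by
  obtain ⟨n, rfl | rfl⟩ := k.eq_nat_or_neg
  · rw [zpow_natCast, Int.cast_natCast, Nat.abs_cast, mul_comm]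
    exact_mod_cast hS.len_pow g n
  · rw [zpow_neg, hS.len_inv, zpow_natCast, Int.cast_neg, abs_neg, Int.cast_natCast,
      Nat.abs_cast, mul_comm]
    exact_mod_cast hS.len_pow g n

theorem hom (hS : Sym S) {A : Type} [AddCommGroup A] (f : A → G d)
    (hf : ∀ x y, f (x + y) = f x * f y) (e : A) (k : ℤ) :
    (len S (f (k • e)) : ℝ) ≤ len S (f e) * |(k : ℝ)| := by
  have h := map_zpow (MonoidHom.mk' (fun x : Multiplicative A => f x.toAdd) fun x y => hf _ _)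
    (Multiplicative.ofAdd e) k
  have h' : f (k • e) = f e ^ k := h
  rw [h']
  exact len_zpow hS _ k

theorem ya (x y : Fin d → ℤ) : (⟨x + y, 0⟩ : G d) = ⟨x, 0⟩ * ⟨y, 0⟩ :=
  G.ext (by simp [sh_zero]) (by simp)

theorem aa (x y : ℤ) : (⟨0, x + y⟩ : G d) = ⟨0, x⟩ * ⟨0, y⟩ :=
  G.ext (by simp [sh_zero_right]) (by simp)

theorem len_sum (hS : Sym S) {ι : Type} (s : Finset ι) (y : ι → Fin d → ℤ) :
    (len S (⟨∑ i ∈ s, y i, 0⟩ : G d) : ℝ) ≤ ∑ i ∈ s, (len S (⟨y i, 0⟩ : G d) : ℝ) := by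
  classical
  induction s using Finset.induction_on with
  | empty =>
    have : (⟨0, 0⟩ : G d) = 1 := rfl
    simp [this, len_one]
  | insert a s ha ih =>
    rw [sum_insert ha, sum_insert ha, ya]
    have : (len S ((⟨y a, 0⟩ : G d) * ⟨∑ i ∈ s, y i, 0⟩) : ℝ) ≤
        len S (⟨y a, 0⟩ : G d) + len S (⟨∑ i ∈ s, y i, 0⟩ : G d) := by
      exact_mod_cast hS.len_mul _ _
    linarith

end WlenA

open WlenA in
theorem p_WLEN :
    S_WLEN := by
  intro d S hS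
  have h1 : (0 : ℝ) ≤ len S (⟨0, 1⟩ : G d) := Nat.cast_nonneg _
  have h2 : (0 : ℝ) ≤ ∑ j, (len S (⟨Pi.single j 1, 0⟩ : G d) : ℝ) :=
    sum_nonneg fun _ _ => Nat.cast_nonneg _
  have h3 : ∀ s : G d, (0 : ℝ) ≤ ∑ j, |(s.y j : ℝ)| := fun s => sum_nonneg fun _ _ => abs_nonneg _
  have h4 : (0 : ℝ) ≤ ∑ s ∈ S, (|(s.a : ℝ)| + ∑ j, |(s.y j : ℝ)|) :=
    sum_nonneg fun s _ => add_nonneg (abs_nonneg _) (h3 s)
  refine ⟨1 + len S (⟨0, 1⟩ : G d) + ∑ j, (len S (⟨Pi.single j 1, 0⟩ : G d) : ℝ) +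
    ∑ s ∈ S, (|(s.a : ℝ)| + ∑ j, |(s.y j : ℝ)|), by linarith, fun k => ?_, fun y => ?_,
    fun s hs => ?_⟩
  · have h := hom hS (fun x : ℤ => (⟨0, x⟩ : G d)) aa 1 k
    rw [smul_eq_mul, mul_one] at h
    exact h.trans (mul_le_mul_of_nonneg_right (by linarith) (abs_nonneg _))
  · have h := len_sum hS univ fun j => y j • (Pi.single j 1 : Fin d → ℤ)
    have e : ∑ j, y j • (Pi.single j 1 : Fin d → ℤ) = y := by
      funext i
      simp [Pi.single_apply]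
    rw [e] at h
    rw [mul_sum]
    refine h.trans (sum_le_sum fun j _ => ?_)
    refine (hom hS (fun x : Fin d → ℤ => (⟨x, 0⟩ : G d)) ya _ (y j)).trans
      (mul_le_mul_of_nonneg_right ?_ (abs_nonneg _))
    have := single_le_sum (f := fun j => (len S (⟨Pi.single j 1, 0⟩ : G d) : ℝ))
      (fun _ _ => Nat.cast_nonneg _) (mem_univ j)
    linarith
  · have h := single_le_sum (f := fun s : G d => |(s.a : ℝ)| + ∑ j, |(s.y j : ℝ)|)
      (fun s _ => add_nonneg (abs_nonneg _) (h3 s)) hs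
    refine ⟨by linarith [h3 s], fun j => ?_⟩
    have := single_le_sum (f := fun j => |(s.y j : ℝ)|) (fun _ _ => abs_nonneg _) (mem_univ j)
    linarith [abs_nonneg (s.a : ℝ)]

end Pool.Agent.P.MP_a0f0ad_al.Fi
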