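import Pool.Agent.P.MP_a0f0ad_al.Fi.W.Iface2

/-! Step WPASS of the filiform project. -/

namespace Pool.Agent.P.MP_a0f0ad_al.Fi

open Finset MeasureTheory

namespace WpassA

theorem two {v : ℕ → ℝ} (hv : StrictMono v) (c : ℝ) (A : Finset ℕ)
    (h : ∀ i ∈ A, v i ≤ c ∧ c ≤ v (i + 1)) : A.card ≤ 2 := by
  rcases A.eq_empty_or_nonempty with rfl | hA
  · simp
  refine (card_le_card (t := {A.min' hA, A.min' hA + 1}) fun j hj => ?_).trans card_le_two
  have h1 := A.min'_le j hj
  have h2 := hv.le_iff_le.1 ((h j hj).1.trans (h _ (A.min'_mem hA)).2)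
  simp only [mem_insert, mem_singleton]
  omega

theorem near {v : ℕ → ℝ} {B h : ℝ} (hB : 0 ≤ B) (h0 : v 0 ≤ h) (hv : ∀ i, v (i + 1) ≤ v i + B)
    (k : ℕ) (hk : h ≤ v k) : ∃ i ≤ k, |v i - h| ≤ B := by
  induction k with
  | zero => exact ⟨0, le_rfl, abs_le.2 ⟨by linarith, by linarith⟩⟩
  | succ k ih =>
    rcases le_total h (v k) with e | e
    · exact (ih e).imp fun i hi => ⟨hi.1.trans k.le_succ, hi.2⟩
    · exact ⟨k + 1, le_rfl, abs_le.2 ⟨by linarith, by linarith [hv k]⟩⟩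

theorem seg {L s t y : ℝ} (hs : |s| ≤ L) (ht : |t| ≤ L) (hy : y ∈ Set.uIcc s t) : |y| ≤ L := by
  rw [abs_le] at *
  rcases Set.mem_uIcc.1 hy with h | h <;> constructor <;> linarith [h.1, h.2, hs.1, hs.2]

theorem bd {f : ℝ → ℝ} {T B M s t : ℝ} (hT : 0 < T) (hM : 0 ≤ M)
    (h : ∀ y ∈ Set.uIcc s t, |f y| ≤ M) (e : |t - s| ≤ B / T) : |T * ∫ y in s..t, f y| ≤ M * B := by
  have h1 := intervalIntegral.norm_integral_le_of_norm_le_const (f := f) (C := M)
    fun y hy => h y (Set.uIoc_subset_uIcc hy)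
  rw [abs_mul, abs_of_pos hT]
  calc T * |∫ y in s..t, f y| ≤ T * (M * (B / T)) :=
        mul_le_mul_of_nonneg_left (h1.trans (mul_le_mul_of_nonneg_left e hM)) hT.le
    _ = M * B := by field_simp

theorem acc {T B L M α τ δ : ℝ} {k n : ℕ} {u g : ℕ → ℝ} {X : Finset ℝ} {a c V : ℝ → ℝ}
    (hT : 1 ≤ T) (hδ : δ = 1 ∨ δ = -1) (hM : 0 ≤ M) (hn : X.card ≤ n)
    (hu : ∀ i, u (i + 1) = u i + a (u i) / T) (ha : ∀ y, 1 ≤ δ * a y ∧ δ * a y ≤ B)
    (hc : ∀ y, |c y| ≤ M) (hX : ∀ x y, (∀ e ∈ X, e ∉ Set.uIcc x y) → a x = a y ∧ c x = c y)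
    (hV : ∀ x, |x| ≤ L → |V x| ≤ M ∧ ∀ y, |y| ≤ L → |V y - V x| ≤ M * |y - x|)
    (hf : ∀ s t, IntervalIntegrable (fun y => c y / a y * V y) volume s t)
    (hL : ∀ i ≤ k, |u i| ≤ L) (hα : |α| ≤ L) (hτ : |τ| ≤ L) (h0 : |u 0 - α| ≤ B / T)
    (h1 : |τ - u k| ≤ B / T) (hk : (k : ℝ) ≤ 2 * L * T)
    (hg : ∀ i < k, |g i - c (u i) * V (u i)| ≤ M / T) :
    |∑ i ∈ range k, g i - T * ∫ y in α..τ, c y / a y * V y| ≤
      2 * L * (M + M * M * B * B) + 2 * n * (M + M * M + M * M * B) + 2 * (M * M * B) := by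
  classical
  have T0 : 0 < T := by linarith
  have B0 : 0 ≤ B := by linarith [ha 0]
  have a1 : ∀ y, 1 ≤ |a y| ∧ |a y| ≤ B := fun y => by
    have := ha y
    rcases hδ with rfl | rfl
    · rw [abs_of_nonneg (by linarith)]; constructor <;> linarith
    · rw [abs_of_nonpos (by linarith)]; constructor <;> linarith
  have a2 : ∀ y, |c y / a y| ≤ M := fun y => by
    rw [abs_div]
    exact (div_le_self (abs_nonneg _) (a1 y).1).trans (hc y)
  have f1 : ∀ s t, |s| ≤ L → |t| ≤ L → |t - s| ≤ B / T →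
      |T * ∫ y in s..t, c y / a y * V y| ≤ M * M * B := fun s t hs ht e =>
    bd T0 (mul_nonneg hM hM) (fun y hy => by
      rw [abs_mul]
      exact mul_le_mul (a2 y) (hV y (seg hs ht hy)).1 (abs_nonneg _) hM) e
  have st : ∀ i, |u (i + 1) - u i| ≤ B / T := fun i => by
    rw [hu, add_sub_cancel_left, abs_div, abs_of_pos T0]
    exact div_le_div_of_nonneg_right (a1 _).2 T0.le
  have sm : StrictMono fun i => δ * u i := strictMono_nat_of_lt_succ fun i => by
    have : 0 < δ * a (u i) / T := div_pos (by linarith [ha (u i)]) T0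
    rw [hu, mul_add, ← mul_div_assoc]
    linarith
  obtain ⟨b, hb⟩ : ∃ b, b = M + M * M + M * M * B := ⟨_, rfl⟩
  have b0 : 0 ≤ b := by rw [hb]; positivity
  have one : ∀ i ∈ range k, |g i - T * ∫ y in u i..u (i + 1), c y / a y * V y| ≤
      (M + M * M * B * B) / T + b * ∑ e ∈ X, if e ∈ Set.uIcc (u i) (u (i + 1)) then 1 else 0 := by
    intro i hi
    have hi := mem_range.1 hi
    have l0 := hL i hi.le
    have l1 := hL (i + 1) hi
    have g1 := hg i hi
    by_cases e : ∀ e ∈ X, e ∉ Set.uIcc (u i) (u (i + 1))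
    · refine le_add_of_le_of_nonneg ?_ (mul_nonneg b0 (sum_nonneg fun _ _ => by positivity))
      have e1 := bd (f := fun y => c y / a y * V y - c (u i) / a (u i) * V (u i))
        (M := M * (M * (B / T))) T0 (by positivity) (fun y hy => by
          obtain ⟨e2, e3⟩ := hX (u i) y fun e' he' h => e e' he' (Set.uIcc_subset_uIcc_left hy h)
          rw [← e2, ← e3, ← mul_sub, abs_mul]
          exact mul_le_mul (a2 _) (((hV _ l0).2 y (seg l0 l1 hy)).trans (mul_le_mul_of_nonneg_left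
            ((Set.abs_sub_left_of_mem_uIcc hy).trans (st i)) hM)) (abs_nonneg _) hM) (st i)
      have a0 : a (u i) ≠ 0 := abs_pos.1 (by linarith [a1 (u i)])
      have e4 : T * ((u (i + 1) - u i) * (c (u i) / a (u i) * V (u i))) = c (u i) * V (u i) := by
        rw [hu, add_sub_cancel_left]; field_simp
      rw [intervalIntegral.integral_sub (hf _ _) intervalIntegrable_const,
        intervalIntegral.integral_const, smul_eq_mul, mul_sub, e4] at e1
      have e5 : (M + M * M * B * B) / T = M / T + M * (M * (B / T)) * B := by ring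
      rw [e5]
      rw [abs_sub_comm] at e1
      exact (abs_sub_le _ _ _).trans (add_le_add g1 e1)
    · push Not at e
      obtain ⟨e, he, he'⟩ := e
      refine le_add_of_nonneg_of_le (by positivity) (le_trans ?_ (le_mul_of_one_le_right b0 ?_))
      · have e1 := f1 _ _ l0 l1 (st i)
        have e2 : |c (u i) * V (u i)| ≤ M * M := by
          rw [abs_mul]
          exact mul_le_mul (hc _) (hV _ l0).1 (abs_nonneg _) hM
        have e3 := div_le_self hM hT
        rw [abs_le] at *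
        constructor <;> linarith [e1.1, e1.2, e2.1, e2.2, g1.1, g1.2]
      · refine le_trans ?_ (single_le_sum (fun _ _ => by positivity) he)
        rw [if_pos he']
  have tot := (abs_sum_le_sum_abs _ _).trans (sum_le_sum one)
  rw [sum_sub_distrib, ← mul_sum, intervalIntegral.sum_integral_adjacent_intervals
    fun i _ => hf _ _, sum_add_distrib, ← mul_sum, sum_comm, sum_const, card_range,
    nsmul_eq_mul] at tot
  have c1 : ∑ e ∈ X, ∑ i ∈ range k, (if e ∈ Set.uIcc (u i) (u (i + 1)) then (1 : ℝ) else 0) ≤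
      n * 2 := by
    refine (sum_le_card_nsmul X _ 2 fun e _ => ?_).trans ?_
    · rw [sum_boole]
      refine Nat.cast_le_ofNat.2 (two sm (δ * e) _ fun i hi => ?_)
      have h2 : δ * u i < δ * u (i + 1) := sm (lt_add_one i)
      rcases Set.mem_uIcc.1 (mem_filter.1 hi).2 with h | h <;> rcases hδ with rfl | rfl <;>
        constructor <;> linarith [h.1, h.2]
    · rw [nsmul_eq_mul]
      exact mul_le_mul_of_nonneg_right (Nat.cast_le.2 hn) zero_le_two
  have c2 : k * ((M + M * M * B * B) / T) ≤ 2 * L * (M + M * M * B * B) :=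
    (mul_le_mul_of_nonneg_right hk (by positivity)).trans (le_of_eq (by field_simp))
  have c3 := mul_le_mul_of_nonneg_left c1 b0
  have c4 := f1 _ _ hα (hL 0 k.zero_le) h0
  have c5 := f1 _ _ (hL k le_rfl) hτ h1
  rw [← intervalIntegral.integral_add_adjacent_intervals (hf α (u 0)) (hf _ _),
    ← intervalIntegral.integral_add_adjacent_intervals (hf (u 0) (u k)) (hf _ _), ← hb]
  rw [abs_le] at *
  constructor <;> linarith [tot.1, tot.2, c4.1, c4.2, c5.1, c5.2]

theorem sh_sum {d : ℕ} (x : ℤ) (y : ℕ → Fin d → ℤ) (k : ℕ) :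
    sh x (∑ i ∈ range k, y i) = ∑ i ∈ range k, sh x (y i) := by
  induction k with
  | zero => simp [sh_zero_right]
  | succ k ih => rw [sum_range_succ, sum_range_succ, sh_add, ih]

end WpassA

open WpassA in
theorem p_WPASS (hWSH : S_WSH) :
    S_WPASS := by
  intro d S L B nE hL hB
  rcases lt_or_ge B 0 with B0 | B0
  · exact ⟨1, one_pos, fun T δ α τ σ X x0 _ _ hσ =>
      absurd ((abs_nonneg _).trans (hB _ (hσ 0).1)) (not_le.2 B0)⟩
  obtain ⟨CW, w0, hW⟩ := hWSH d (L + B) (by positivity)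
  obtain ⟨CV, v0, hV⟩ := exists_Vd_bound d (L + B)
  obtain ⟨CT, t0, hC⟩ := exists_Vd_taylor d (L + B)
  obtain ⟨Y, y0, hY⟩ : ∃ Y : ℝ, 0 ≤ Y ∧ ∀ s ∈ S, ∀ j, |(s.y j : ℝ)| ≤ Y :=
    ⟨∑ s ∈ S, ∑ j, |(s.y j : ℝ)|, by positivity, fun s hs j =>
      (single_le_sum (f := fun j => |(s.y j : ℝ)|) (fun _ _ => abs_nonneg _) (mem_univ j)).trans
        (single_le_sum (f := fun s : G d => ∑ j, |(s.y j : ℝ)|) (fun _ _ => by positivity) hs)⟩
  have wy := mul_nonneg w0.le y0
  obtain ⟨M, hM⟩ : ∃ M, M = 1 + Y + CV + CT + CW * Y := ⟨_, rfl⟩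
  have M0 : 0 ≤ M := by linarith
  refine ⟨2 * (L + B) * (M + M * M * B * B) + 2 * nE * (M + M * M + M * M * B) +
    2 * (M * M * B) + 1, by positivity, fun T δ α τ σ X x0 hT hδ hσ hn hX i1 i2 hα hτ h0 h1 => ?_⟩
  have T0 : 0 < T := by linarith
  obtain ⟨x, rfl, xs⟩ : ∃ x : ℕ → ℤ, x 0 = x0 ∧ ∀ i, x (i + 1) = x i + (σ (x i / T)).a :=
    ⟨fun i => Nat.rec x0 (fun _ y => y + (σ (y / T)).a) i, rfl, fun _ => rfl⟩
  have ha : ∀ y, 1 ≤ δ * (σ y).a ∧ δ * (σ y).a ≤ B := fun y => by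
    have e1 := (hσ y).2
    have e2 := abs_le.1 (hB _ (hσ y).1)
    rcases hδ with rfl | rfl
    · rw [one_mul] at e1 ⊢
      exact ⟨by exact_mod_cast e1, e2.2⟩
    · rw [neg_one_mul] at e1 ⊢
      exact ⟨by exact_mod_cast e1, by linarith⟩
  have inc : ∀ i, δ * x i + 1 ≤ δ * x (i + 1) ∧ δ * x (i + 1) ≤ δ * x i + B := fun i => by
    rw [xs, Int.cast_add, mul_add]
    constructor <;> linarith [ha (x i / T)]
  have grow : ∀ i : ℕ, δ * x 0 + i ≤ δ * x i := fun i => by
    induction i with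
    | zero => simp
    | succ i ih => rw [Nat.cast_succ]; linarith [inc i]
  have ex : ∃ k, 0 ≤ δ * (x k - T * τ) := (exists_nat_ge (δ * (T * τ - x 0))).imp fun k hk => by
    linarith [grow k]
  obtain ⟨k, k1, k2⟩ : ∃ k, 0 ≤ δ * (x k - T * τ) ∧ ∀ i < k, δ * (x i - T * τ) < 0 :=
    ⟨_, Nat.find_spec ex, fun i hi => not_le.1 (Nat.find_min ex hi)⟩
  have up : ∀ i ≤ k, δ * (x i - T * τ) ≤ B := fun i hi => by
    cases i with
    | zero => linarith
    | succ i => linarith [inc i, k2 i hi]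
  have hα' := abs_le.1 hα
  have hτ' := abs_le.1 hτ
  have h0' := abs_le.1 h0
  have bx : ∀ i ≤ k, |(x i : ℝ)| ≤ (L + B) * T := fun i hi => by
    have e1 := up i hi
    have e2 := grow i
    have e3 : (0 : ℝ) ≤ i := Nat.cast_nonneg i
    rcases hδ with rfl | rfl <;> rw [abs_le] <;> constructor <;> nlinarith
  have bk : (k : ℝ) ≤ 2 * (L + B) * T := by
    have e1 := up k le_rfl
    have e2 := grow k
    rcases hδ with rfl | rfl <;> nlinarith
  obtain ⟨w, hw, wl, hlt⟩ : ∃ w : List (G d), Wd S w ∧ w.length = k ∧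
      ∀ i < k, lt w i = σ (x i / T) := by
    refine ⟨(List.range k).map fun i => σ (x i / T), fun s hs => ?_, by simp, fun i hi => ?_⟩
    · obtain ⟨i, -, rfl⟩ := List.mem_map.1 hs
      exact (hσ _).1
    · simp [lt, hi]
  have hht : ∀ i ≤ k, ht w i = x i - x 0 := fun i hi => by
    induction i with
    | zero => simp
    | succ i ih => rw [ht_succ, ih (by omega), hlt i hi, xs]; ring
  have pa : (w.prod.a : ℝ) = x k - x 0 := by
    rw [← ht_length, wl, hht k le_rfl, Int.cast_sub]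
  have key := fun (g : ℕ → ℝ) (c V : ℝ → ℝ) hc hX hV hf hg =>
    acc (u := fun i => x i / T) (g := g) (a := fun y => (σ y).a) (c := c) (V := V) (X := X)
      (α := α) (τ := τ) hT hδ M0 hn (fun i => by rw [xs, Int.cast_add, add_div]) ha hc hX hV hf
      (fun i hi => by rw [abs_div, abs_of_pos T0, div_le_iff₀ T0]; exact bx i hi)
      (by linarith) (by linarith)
      (by
        rw [le_div_iff₀ T0, ← abs_of_pos T0, ← abs_mul, abs_of_pos T0, sub_mul,
          div_mul_cancel₀ _ T0.ne', mul_comm]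
        exact h0)
      (by
        rw [le_div_iff₀ T0, ← abs_of_pos T0, ← abs_mul, abs_of_pos T0, sub_mul,
          div_mul_cancel₀ _ T0.ne', abs_le]
        have := up k le_rfl
        rcases hδ with rfl | rfl <;> constructor <;> linarith) bk hg
  refine ⟨w, hw, by rwa [pa, add_sub_cancel], by rw [pa, add_sub_cancel]; exact up k le_rfl,
    fun h e1 e2 => ?_, ?_, fun j => ?_⟩
  · obtain ⟨i, hi, e⟩ := near (v := fun i => δ * (x i - x 0)) (h := h) B0 (by simpa using e1)
      (fun i => by linarith [inc i]) k (by rwa [pa] at e2)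
    exact ⟨i, wl ▸ hi, by rwa [hht i hi, Int.cast_sub]⟩
  · have e := key (fun _ => 1) (fun _ => 1) (fun _ => 1) (fun _ => by rw [abs_one]; linarith)
      (fun s t h => ⟨by rw [hX s t h], rfl⟩)
      (fun _ _ => ⟨by rw [abs_one]; linarith, fun _ _ => by rw [sub_self, abs_zero]; positivity⟩)
      (by simpa using i1) fun _ _ => by rw [mul_one, sub_self, abs_zero]; positivity
    simp only [sum_const, card_range, nsmul_eq_mul, mul_one, one_div] at e
    rw [wl]
    linarith [abs_le.1 e]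
  · have e := key (fun i => (sh (x i) (σ (x i / T)).y j : ℝ) / T ^ (j : ℕ)) (fun y => (σ y).b)
      (fun y => Vd 0 y j) (fun y => ?_) (fun s t h => by rw [hX s t h]; exact ⟨rfl, rfl⟩)
      (fun s hs => ⟨((norm_le_pi_norm _ j).trans (hV 0 s hs).1).trans (by linarith), fun t ht =>
        ((norm_le_pi_norm (Vd 0 t - Vd 0 s) j).trans (hC 0 s t hs ht).1).trans
          (mul_le_mul_of_nonneg_right (by linarith) (abs_nonneg _))⟩) (i2 j) fun i hi => ?_
    · have e1 : sh (x 0) w.prod.y = ∑ i ∈ range k, sh (x i) (σ (x i / T)).y := by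
        rw [G.prod_y, sh_sum, wl]
        refine sum_congr rfl fun i hi => ?_
        rw [sh_sh, hht i (mem_range.1 hi).le, hlt i (mem_range.1 hi), add_sub_cancel]
      rw [e1, Finset.sum_apply, Int.cast_sum, sum_div]
      linarith
    · unfold G.b co
      split_ifs
      · linarith [hY _ (hσ y).1 ⟨0, by assumption⟩]
      · simpa using M0
    · have e1 := (hW T Y (x i) _ hT (bx i hi.le)).2 (hY _ (hσ (x i / T)).1) j
      refine le_trans (le_of_eq ?_) (e1.trans (div_le_div_of_nonneg_right (by linarith) T0.le))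
      simp [Vd, G.b]

end Pool.Agent.P.MP_a0f0ad_al.Fi
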