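import Pool.Agent.P.MP_a0f0ad_al.Fi.W.Iface2

/-! Step WRNG of the filiform project. -/

namespace Pool.Agent.P.MP_a0f0ad_al.Fi

open Finset MeasureTheory

theorem p_WRNG (hWSH : S_WSH) (hWLEN : S_WLEN) (hWELL : S_WELL) :
    S_WRNG := by
  intro d S L hd hS
  obtain ⟨C0, hC0, -, -, hlet⟩ := hWLEN d S hS
  obtain ⟨CS, hCS, hsh⟩ := hWSH d 1 zero_le_one
  obtain ⟨m0, hm0⟩ : ∃ m0 : ℝ, m0 = max 1 L := ⟨_, rfl⟩
  obtain ⟨K, hK⟩ : ∃ K : ℝ, K = max 1 (2 * (|L| * (CS * C0))) := ⟨_, rfl⟩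
  have m1 : 1 ≤ m0 := hm0 ▸ le_max_left _ _
  have K1 : 1 ≤ K := hK ▸ le_max_left _ _
  have K2 : 2 * (|L| * (CS * C0)) ≤ K := hK ▸ le_max_right _ _
  have P1 : 1 ≤ m0 ^ d := one_le_pow₀ m1
  obtain ⟨c, hc⟩ : ∃ c : ℝ, c = 1 / (2 * K * m0 ^ d) := ⟨_, rfl⟩
  have c0 : 0 < c := by rw [hc]; positivity
  have c1 : c * m0 ^ d * (2 * K) = 1 := by rw [hc]; field_simp
  have c2 : c * (2 * K) ≤ 1 := by
    have : c * (2 * K) * 1 ≤ c * (2 * K) * m0 ^ d := by gcongr
    linarith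
  refine ⟨c, c0, fun u T w lo hi hu huL hl hT hw hlen hΔ hr => ?_⟩
  obtain ⟨-, e2, e3, -⟩ := hWELL d u
  have lm : ell u ≤ m0 := e2.trans (hm0 ▸ max_le_max le_rfl huL)
  have h0 := hr 0 (Nat.zero_le _)
  rw [ht_zero, Int.cast_zero] at h0
  have lT : 0 < ell u * T := by positivity
  have hpow : ∀ j ≤ d, c * T * ell u ^ d * (2 * K) ≤ T * ell u ^ j := fun j hj => by
    have a1 : ell u ^ (d - j) ≤ m0 ^ d :=
      (pow_le_pow_left₀ hl.le lm _).trans (pow_le_pow_right₀ m1 (Nat.sub_le _ _))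
    have a2 : ell u ^ d = ell u ^ j * ell u ^ (d - j) := by rw [← pow_add, Nat.add_sub_cancel' hj]
    calc c * T * ell u ^ d * (2 * K) = T * ell u ^ j * (c * ell u ^ (d - j) * (2 * K)) := by
          rw [a2]; ring
      _ ≤ T * ell u ^ j * (c * m0 ^ d * (2 * K)) := by gcongr
      _ = T * ell u ^ j := by rw [c1, mul_one]
  have cl : c * ell u * T * (2 * K) ≤ ell u * T := by
    have : c * (2 * K) * (ell u * T) ≤ 1 * (ell u * T) := by gcongr
    linarith
  have cl0 : 0 < c * ell u * T := by positivity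
  rcases e3 with e | ⟨j, j1, e⟩
  · rw [abs_of_nonneg hu] at e
    have a1 : c * ell u * T * 1 ≤ c * ell u * T * (2 * K) := by gcongr; linarith
    have a2 := le_max_right hi (T * u.1)
    rw [← e] at a2 ⊢
    linarith [h0.1]
  · obtain ⟨H, hH⟩ : ∃ H : ℝ, H = hi - lo + 1 := ⟨_, rfl⟩
    have H1 : 1 ≤ H := by linarith [h0.1, h0.2]
    have hy : |(w.prod.y j : ℝ)| ≤ w.length * (CS * C0 * H ^ (j : ℕ)) := by
      rw [G.prod_y, Finset.sum_apply, Int.cast_sum]
      refine (abs_sum_le_sum_abs _ _).trans ((sum_le_card_nsmul _ _ _ fun k hk => ?_).trans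
        (by rw [card_range, nsmul_eq_mul]))
      have hk' := mem_range.1 hk
      refine (hsh H C0 (ht w k) (lt w k).y H1 ?_).1 (fun i => ?_) j
      · have := hr k hk'.le
        rw [abs_le]
        constructor <;> linarith [this.1, this.2, h0.1, h0.2]
      · refine ((hlet _ (hw.lt_mem hk')).2 i).trans ?_
        exact le_mul_of_one_le_right (by linarith) (one_le_pow₀ H1)
    have hy' : 2 * |(w.prod.y j : ℝ)| ≤ T * (K * H) ^ (j : ℕ) := by
      have a1 : (w.length : ℝ) ≤ |L| * T := hlen.trans (by gcongr; exact le_abs_self L)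
      have a2 : K ≤ K ^ (j : ℕ) := le_self_pow₀ K1 (by omega)
      calc 2 * |(w.prod.y j : ℝ)| ≤ 2 * (|L| * T * (CS * C0 * H ^ (j : ℕ))) := by
            refine mul_le_mul_of_nonneg_left (hy.trans ?_) zero_le_two
            gcongr
        _ = T * (2 * (|L| * (CS * C0)) * H ^ (j : ℕ)) := by ring
        _ ≤ T * (K ^ (j : ℕ) * H ^ (j : ℕ)) := by gcongr; exact K2.trans a2
        _ = T * (K * H) ^ (j : ℕ) := by rw [mul_pow]
    have hn : |(w.prod.y j : ℝ) / T ^ (j : ℕ) - T * u.2 j| ≤ ‖nx T w.prod - T • u‖ :=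
      (norm_le_pi_norm (nx T w.prod - T • u).2 j).trans (norm_snd_le _)
    have n0 := norm_nonneg (nx T w.prod - T • u)
    have b0 : 0 ≤ c * T * ell u ^ d := by positivity
    have b1 : c * T * ell u ^ d * 2 ≤ T * ell u ^ (j : ℕ) := by
      have : c * T * ell u ^ d * 2 ≤ c * T * ell u ^ d * (2 * K) := by gcongr; linarith
      exact this.trans (hpow j j.2.le)
    have b2 : T * ell u ^ (j : ℕ) ≤ 2 * (|(w.prod.y j : ℝ)| / T ^ (j : ℕ)) := by
      have a1 := abs_sub_abs_le_abs_sub (T * u.2 j) ((w.prod.y j : ℝ) / T ^ (j : ℕ))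
      rw [abs_sub_comm, abs_mul, abs_div, abs_of_pos (by linarith : 0 < T), ← e,
        abs_of_pos (by positivity : 0 < T ^ (j : ℕ))] at a1
      linarith
    have b3 : (ell u * T) ^ (j : ℕ) ≤ (K * H) ^ (j : ℕ) := by
      rw [← mul_div_assoc, le_div_iff₀ (by positivity)] at b2
      refine le_of_mul_le_mul_left ?_ (by linarith : 0 < T)
      rw [mul_pow]
      linarith
    have b4 : ell u * T ≤ K * H := le_of_pow_le_pow_left₀ (by omega) (by positivity) b3
    have b5 : 1 * (2 * K) ≤ c * T * ell u ^ d * (2 * K) := by gcongr; linarith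
    have b6 := hpow 1 hd
    rw [pow_one] at b6
    have b7 : c * ell u * T * (2 * K) ≤ (hi - lo) * (2 * K) := by
      rw [hH] at b4
      linarith
    have b8 := le_of_mul_le_mul_right b7 (by linarith)
    linarith [le_max_left hi (T * u.1)]

end Pool.Agent.P.MP_a0f0ad_al.Fi
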