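import Pool.Agent.P.MP_a0f0ad_al.Fi.W.Iface2

/-! Step WSH of the filiform project. -/

namespace Pool.Agent.P.MP_a0f0ad_al.Fi

open Finset MeasureTheory

namespace WshA

theorem coef {d i j : ℕ} (hj : j < d) {L T x : ℝ} (hL : 0 ≤ L) (hT : 1 ≤ T) (hx : |x| ≤ L * T) :
    |((j.choose i : ℕ) : ℝ) * x ^ (j - i)| ≤ 2 ^ d * (1 + L) ^ d * T ^ (j - i) := by
  have hT0 : 0 ≤ T := by linarith
  have h1 : ((j.choose i : ℕ) : ℝ) ≤ 2 ^ d := by
    have := (Nat.choose_le_two_pow j i).trans (Nat.pow_le_pow_right (by norm_num) hj.le)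
    exact_mod_cast this
  have h2 : |x| ^ (j - i) ≤ (1 + L) ^ d * T ^ (j - i) :=
    calc |x| ^ (j - i) ≤ ((1 + L) * T) ^ (j - i) :=
          pow_le_pow_left₀ (abs_nonneg x) (by nlinarith) _
      _ = (1 + L) ^ (j - i) * T ^ (j - i) := mul_pow _ _ _
      _ ≤ (1 + L) ^ d * T ^ (j - i) :=
          mul_le_mul_of_nonneg_right (pow_le_pow_right₀ (by linarith) (by omega)) (by positivity)
  rw [abs_mul, abs_pow, Nat.abs_cast, mul_assoc]
  exact mul_le_mul h1 h2 (by positivity) (by positivity)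

theorem sum_bd {d : ℕ} (s : Finset (Fin d)) (f : Fin d → ℝ) {K : ℝ} (hK : 0 ≤ K)
    (h : ∀ i ∈ s, |f i| ≤ K) : |∑ i ∈ s, f i| ≤ (d + 1) * K := by
  have h1 : (s.card : ℝ) ≤ d + 1 := by
    have := card_le_univ s
    rw [Fintype.card_fin] at this
    exact_mod_cast this.trans d.le_succ
  calc |∑ i ∈ s, f i| ≤ ∑ i ∈ s, |f i| := abs_sum_le_sum_abs _ _
    _ ≤ s.card * K := by simpa using sum_le_card_nsmul s _ K h
    _ ≤ (d + 1) * K := mul_le_mul_of_nonneg_right h1 hK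

end WshA

theorem p_WSH :
    S_WSH := by
  intro d L hL
  refine ⟨(d + 1) * (2 ^ d * (1 + L) ^ d), by positivity, fun T B x y hT hx => ?_⟩
  have hT0 : 0 < T := by linarith
  have hK : (0 : ℝ) ≤ 2 ^ d * (1 + L) ^ d := by positivity
  have e : ∀ j : Fin d, (sh x y j : ℝ) =
      ∑ i : Fin d, (((j : ℕ).choose i : ℕ) : ℝ) * (x : ℝ) ^ ((j : ℕ) - i) * y i := fun j => by
    simp only [sh]
    push_cast
    rfl
  have hc := fun (j : Fin d) (i : ℕ) => WshA.coef (i := i) j.2 hL hT hx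
  generalize (2 : ℝ) ^ d * (1 + L) ^ d = K at *
  refine ⟨fun hy j => ?_, fun hy j => ?_⟩
  · have h0 : 0 ≤ B * T ^ (j : ℕ) := (abs_nonneg _).trans (hy j)
    rw [e, mul_assoc, mul_assoc]
    refine WshA.sum_bd _ _ (mul_nonneg hK h0) fun i _ => ?_
    by_cases hi : (i : ℕ) ≤ j
    · rw [abs_mul]
      refine (mul_le_mul (hc j i) (hy i) (abs_nonneg _) (by positivity)).trans (le_of_eq ?_)
      rw [show T ^ (j : ℕ) = T ^ ((j : ℕ) - i) * T ^ (i : ℕ) by
        rw [← pow_add, Nat.sub_add_cancel hi]]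
      ring
    · rw [Nat.choose_eq_zero_of_lt (not_le.1 hi)]
      simpa using mul_nonneg hK h0
  · have h0 : 0 ≤ B := (abs_nonneg _).trans (hy j)
    have hd : 0 < d := j.pos
    have hp : 0 < T ^ (j : ℕ) := pow_pos hT0 _
    have e2 : (sh x y j : ℝ) / T ^ (j : ℕ) - (co y 0 : ℤ) * ((x : ℝ) / T) ^ (j : ℕ) =
        ∑ i ∈ univ.erase (⟨0, hd⟩ : Fin d),
          (((j : ℕ).choose i : ℕ) : ℝ) * (x : ℝ) ^ ((j : ℕ) - i) * y i / T ^ (j : ℕ) := by
      rw [e, ← add_sum_erase _ _ (mem_univ (⟨0, hd⟩ : Fin d)), ← sum_div, co, dif_pos hd, div_pow]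
      simp only [Nat.choose_zero_right, Nat.cast_one, Nat.sub_zero]
      ring
    rw [e2]
    refine (WshA.sum_bd _ _ (K := K * B / T) (by positivity) fun i hi => ?_).trans
      (le_of_eq (by ring))
    have hi0 : 1 ≤ (i : ℕ) :=
      Nat.one_le_iff_ne_zero.2 fun h => (mem_erase.1 hi).1 (Fin.ext h)
    by_cases hi : (i : ℕ) ≤ j
    · rw [abs_div, abs_mul, abs_of_pos hp, div_le_div_iff₀ hp hT0]
      have h1 := mul_le_mul (hc j i) (hy i) (abs_nonneg _) (by positivity)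
      have h2 : T ^ ((j : ℕ) - i) * T ≤ T ^ (j : ℕ) := by
        rw [← pow_succ]
        exact pow_le_pow_right₀ hT (by omega)
      calc _ ≤ K * T ^ ((j : ℕ) - i) * B * T := mul_le_mul_of_nonneg_right h1 hT0.le
        _ = K * B * (T ^ ((j : ℕ) - i) * T) := by ring
        _ ≤ K * B * T ^ (j : ℕ) := mul_le_mul_of_nonneg_left h2 (mul_nonneg hK h0)
    · rw [Nat.choose_eq_zero_of_lt (not_le.1 hi)]
      have : 0 ≤ K * B / T := by positivity
      simpa using this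

end Pool.Agent.P.MP_a0f0ad_al.Fi
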