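import Pool.Agent.P.MP_a0f0ad_al.Fi.W.Iface2
import Pool.Agent.P.MP_a0f0ad_al.Fi.V.Iface

/-! Step WUB of the filiform project. -/

namespace Pool.Agent.P.MP_a0f0ad_al.Fi

open Finset MeasureTheory

namespace WubA

variable {d : ℕ}

theorem crd {T B : ℝ} (hT : 1 ≤ T) {g g0 : G d} (h : ‖nx T g - nx T g0‖ ≤ B) :
    |((g.a - g0.a : ℤ) : ℝ)| ≤ B ∧ ∀ j, |(((g.y - g0.y) j : ℤ) : ℝ)| ≤ B * T ^ (j : ℕ) := by
  refine ⟨?_, fun j => ?_⟩
  · have := (norm_fst_le _).trans h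
    simpa [nx] using this
  · have h1 := ((norm_le_pi_norm _ j).trans (norm_snd_le _)).trans h
    have h2 : 0 < T ^ (j : ℕ) := by positivity
    simp only [nx, Prod.snd_sub, Pi.sub_apply, Real.norm_eq_abs] at h1
    rw [← sub_div, abs_div, abs_of_pos h2, div_le_iff₀ h2] at h1
    simpa using h1

theorem split (g p1 p3 W : G d) (v : Fin d → ℤ) :
    g = p1 * ((⟨sh (-p1.a) (g.y - (p1 * ((⟨v, 0⟩ : G d) * W) * p3).y) + v, 0⟩ : G d) * W) * p3 *
      ⟨0, g.a - (p1 * ((⟨v, 0⟩ : G d) * W) * p3).a⟩ := by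
  refine G.ext ?_ (by simp)
  simp only [G.mul_y, G.mul_a, sh_add, sh_sh, sh_zero, sh_zero_right, add_neg_cancel]
  abel

end WubA

open WubA in
theorem p_WUB (hHOM : S_HOM) (hWINS : S_WINS) (hWSH : S_WSH) (hWLEN : S_WLEN) (hWELL : S_WELL) (hWFILL : S_WFILL) (hWDIS : S_WDIS) :
    S_WUB := by
  intro d S D L hd hD
  obtain ⟨C0, c, C0p, cp, hdis⟩ := hWDIS d S D L hd hD
  obtain ⟨CS, CSp, hsh⟩ := hWSH d C0 C0p.le
  obtain ⟨CF, CFp, hfill⟩ := hWFILL d S C0 (by omega) hD.sym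
  obtain ⟨CL, CL1, l1, l2, -⟩ := hWLEN d S hD.sym
  obtain ⟨m, m1, mL⟩ : ∃ m : ℝ, 1 ≤ m ∧ L ≤ m := ⟨max 1 L, le_max_left _ _, le_max_right _ _⟩
  have d2 : (2 : ℝ) ≤ d := by exact_mod_cast hd
  have A0 : 0 < 2 * m * CL * (d + 1) := by positivity
  have A1 : 0 < C0 + CF * (CS * (C0 + 1) + 2) + CL * (C0 + 1) := by positivity
  refine ⟨(2 * m * CL * (d + 1) + (C0 + CF * (CS * (C0 + 1) + 2) + CL * (C0 + 1))) *
    (2 * d / c + m) ^ d, by positivity, fun u u0 uL lp T hT g => ?_⟩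
  have lm : ell u ≤ m := (hWELL d u).2.1.trans (max_le m1 (uL.trans mL))
  obtain ⟨κ, hκ⟩ : ∃ κ, κ = (2 * d / c + m) / ell u := ⟨_, rfl⟩
  have q0 : 0 < 2 * (d : ℝ) / c := by positivity
  have κ1 : 1 ≤ κ := by rw [hκ, one_le_div lp]; linarith
  have κ2 : 2 * d ≤ κ * (c * ell u) := by
    have : κ * (c * ell u) = 2 * d + m * c := by rw [hκ]; field_simp
    rw [this]
    nlinarith
  rw [mul_div_assoc, ← div_pow, ← hκ]
  obtain ⟨P, hP⟩ : ∃ P, P = κ ^ d := ⟨_, rfl⟩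
  have κP : ∀ j ≤ d, κ ^ j ≤ P := fun j hj => hP ▸ pow_le_pow_right₀ κ1 hj
  have P1 : 1 ≤ P := by simpa using κP 0 (Nat.zero_le _)
  rw [← hP]
  obtain ⟨Δ, hΔ⟩ : ∃ Δ, Δ = ‖nx T g - T • u‖ := ⟨_, rfl⟩
  have Δ0 : 0 ≤ Δ := hΔ ▸ norm_nonneg _
  rw [← hΔ]
  have N0 : 0 ≤ T * D.NN u := mul_nonneg (by linarith) ((hHOM d S D hD).2.1 u u0)
  have PE : 1 ≤ P * (1 + Δ) := by nlinarith
  have cl : 0 < c * ell u := by positivity
  rcases lt_or_ge (c * T * ell u) (2 * d) with hc | hc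
  · have Tκ : T ≤ κ := le_of_mul_le_mul_right (by nlinarith) cl
    have h1 : ‖nx T g - nx T (1 : G d)‖ ≤ 2 * m * (1 + Δ) * T := by
      have e : nx T (1 : G d) = 0 := by ext <;> simp [nx]
      have a := norm_le_norm_add_norm_sub' (nx T g) (T • u)
      rw [norm_smul, Real.norm_eq_abs, abs_of_pos (by linarith), ← hΔ] at a
      rw [e, sub_zero]
      have b : T * ‖u‖ ≤ T * m := by gcongr; linarith
      have b1 : 1 ≤ m * T := by nlinarith
      nlinarith [mul_le_mul_of_nonneg_left b1 Δ0, mul_nonneg (zero_le_one.trans b1) Δ0]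
    obtain ⟨h2, h3⟩ := crd hT h1
    simp only [G.one_a, G.one_y, sub_zero] at h2 h3
    have TP : ∀ j < d, T * T ^ j ≤ P := fun j hj => by
      rw [← pow_succ']
      exact (pow_le_pow_left₀ (by linarith) Tκ _).trans (κP _ hj)
    have B0 : 0 ≤ 2 * m * (1 + Δ) := by positivity
    have h4 : |(g.a : ℝ)| ≤ 2 * m * (1 + Δ) * P :=
      h2.trans (mul_le_mul_of_nonneg_left (by simpa using TP 0 (by omega)) B0)
    have h5 : ∑ j, |(g.y j : ℝ)| ≤ d * (2 * m * (1 + Δ) * P) := by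
      refine (sum_le_card_nsmul _ _ (2 * m * (1 + Δ) * P) fun j _ => (h3 j).trans ?_).trans_eq
        (by simp)
      rw [mul_assoc]
      exact mul_le_mul_of_nonneg_left (TP j j.2) B0
    have e : g = (⟨g.y, 0⟩ : G d) * ⟨0, g.a⟩ := G.ext (by simp [sh_zero_right]) (by simp)
    have h6 : (len S g : ℝ) ≤ len S (⟨g.y, 0⟩ : G d) + len S (⟨0, g.a⟩ : G d) := by
      have := hD.sym.len_mul ⟨g.y, 0⟩ ⟨0, g.a⟩
      rw [← e] at this
      exact_mod_cast this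
    have h7 := (l1 g.a).trans (mul_le_mul_of_nonneg_left h4 (by linarith))
    have h8 := (l2 g.y).trans (mul_le_mul_of_nonneg_left h5 (by linarith))
    have h9 := mul_nonneg A1.le (zero_le_one.trans PE)
    linarith
  · obtain ⟨p1, p3, w, v, cv, hw, hv, hl, ha, hh, hn⟩ := hdis u u0 uL lp T hT
    obtain ⟨-, iadd, -, -, ilen⟩ := hWINS d S w hD.sym hw
    have h1 : ‖nx T g - nx T (p1 * ((⟨v, 0⟩ : G d) * w.prod) * p3)‖ ≤ C0 + Δ := by
      have a := norm_sub_le_norm_sub_add_norm_sub (nx T g) (T • u)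
        (nx T (p1 * ((⟨v, 0⟩ : G d) * w.prod) * p3))
      rw [norm_sub_rev (T • u), ← hΔ] at a
      linarith
    obtain ⟨h2, h3⟩ := crd hT h1
    have h4 := (hsh T (C0 + Δ) (-p1.a) _ hT (by simpa using ha)).1 h3
    have e := split g p1 p3 w.prod v
    generalize sh (-p1.a) (g.y - (p1 * ((⟨v, 0⟩ : G d) * w.prod) * p3).y) = r at h4 e
    generalize g.a - (p1 * ((⟨v, 0⟩ : G d) * w.prod) * p3).a = k at h2 e
    obtain ⟨H, H1, H2, H3⟩ : ∃ H : ℕ, 1 ≤ H ∧ (d : ℝ) * H ≤ c * T * ell u ∧ T ≤ κ * H := by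
      have a : (2 : ℝ) ≤ c * T * ell u / d := by rw [le_div_iff₀ (by linarith)]; linarith
      have b : 1 ≤ ⌊c * T * ell u / d⌋₊ := Nat.le_floor (by push_cast; linarith)
      have b' : (1 : ℝ) ≤ ⌊c * T * ell u / d⌋₊ := by exact_mod_cast b
      have f1 := Nat.floor_le (zero_le_two.trans a)
      have f2 := Nat.lt_floor_add_one (c * T * ell u / d)
      rw [le_div_iff₀ (by linarith)] at f1
      rw [div_lt_iff₀ (by linarith)] at f2
      refine ⟨_, b, by linarith, le_of_mul_le_mul_right ?_ cl⟩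
      nlinarith [mul_le_mul_of_nonneg_left κ2 (zero_le_one.trans b')]
    have B0 : 0 ≤ CS * (C0 + Δ) := by positivity
    obtain ⟨ρ, ρ1, ρ2, ρ3⟩ : ∃ ρ : ℕ, 1 ≤ ρ ∧ CS * (C0 + Δ) * P ≤ ρ ∧
        (ρ : ℝ) ≤ CS * (C0 + Δ) * P + 2 := by
      have a := Nat.le_ceil (CS * (C0 + Δ) * P)
      have b := Nat.ceil_lt_add_one (show 0 ≤ CS * (C0 + Δ) * P by positivity)
      exact ⟨⌈CS * (C0 + Δ) * P⌉₊ + 1, by omega, by push_cast; linarith, by push_cast; linarith⟩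
    have h5 := hfill w H ρ r hw H1 ρ1 (fun h a => hh h (Nat.cast_nonneg h) (by
      refine le_trans ?_ H2
      exact_mod_cast a)) fun j => by
      have a : T ^ (j : ℕ) ≤ P * (H : ℝ) ^ (j : ℕ) :=
        (pow_le_pow_left₀ (by linarith) H3 _).trans (by
          rw [mul_pow]
          exact mul_le_mul_of_nonneg_right (κP _ j.2.le) (by positivity))
      have b := (h4 j).trans (mul_le_mul_of_nonneg_left a B0)
      rw [← mul_assoc] at b
      have b' := b.trans (mul_le_mul_of_nonneg_right ρ2 (by positivity))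
      exact_mod_cast b'
    have h6 := ilen _ _ (iadd _ _ _ _ h5 hv)
    have h7 : (len S g : ℝ) ≤ len S p1 + len S ((⟨r + v, 0⟩ : G d) * w.prod) + len S p3 +
        len S (⟨0, k⟩ : G d) := by
      have a1 := hD.sym.len_mul (p1 * ((⟨r + v, 0⟩ : G d) * w.prod) * p3) ⟨0, k⟩
      have a2 := hD.sym.len_mul (p1 * ((⟨r + v, 0⟩ : G d) * w.prod)) p3
      have a3 := hD.sym.len_mul p1 ((⟨r + v, 0⟩ : G d) * w.prod)
      rw [← e] at a1
      exact_mod_cast (by omega : len S g ≤ len S p1 + len S ((⟨r + v, 0⟩ : G d) * w.prod) +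
        len S p3 + len S (⟨0, k⟩ : G d))
    have k1 : C0 + Δ ≤ (C0 + 1) * (1 + Δ) := by nlinarith
    have k2 : C0 + Δ ≤ (C0 + 1) * (P * (1 + Δ)) :=
      k1.trans (mul_le_mul_of_nonneg_left (by nlinarith) (by linarith))
    have h8 := (l1 k).trans (mul_le_mul_of_nonneg_left (h2.trans k2) (by linarith))
    have k3 : (ρ : ℝ) ≤ (CS * (C0 + 1) + 2) * (P * (1 + Δ)) := by
      have := mul_le_mul_of_nonneg_left k1 (show 0 ≤ CS * P by positivity)
      linarith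
    have k4 := mul_le_mul_of_nonneg_left k3 CFp.le
    have k5 := mul_le_mul_of_nonneg_left PE C0p.le
    have h9 := mul_nonneg A0.le (zero_le_one.trans PE)
    linarith

end Pool.Agent.P.MP_a0f0ad_al.Fi
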