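import Pool.Agent.P.MP_a0f0ad_al.Fi.I.Iface
import Pool.Agent.P.MP_a0f0ad_al.Fi.R.Iface
import Pool.Agent.P.MP_a0f0ad_al.Fi.W.Wins
import Pool.Agent.P.MP_a0f0ad_al.Fi.W.Wsh
import Pool.Agent.P.MP_a0f0ad_al.Fi.W.Wlen
import Pool.Agent.P.MP_a0f0ad_al.Fi.W.Well
import Pool.Agent.P.MP_a0f0ad_al.Fi.W.Wpass
import Pool.Agent.P.MP_a0f0ad_al.Fi.W.Wati
import Pool.Agent.P.MP_a0f0ad_al.Fi.W.Wfill
import Pool.Agent.P.MP_a0f0ad_al.Fi.W.Wnb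
import Pool.Agent.P.MP_a0f0ad_al.Fi.W.Wrng
import Pool.Agent.P.MP_a0f0ad_al.Fi.W.Wlb
import Pool.Agent.P.MP_a0f0ad_al.Fi.W.Wdis
import Pool.Agent.P.MP_a0f0ad_al.Fi.W.Wub

/-! Step H2N of the filiform project. -/

namespace Pool.Agent.P.MP_a0f0ad_al.Fi

theorem H2nA.both (hL : S_WLB) (hU : S_WUB) : S_H2N := by
  intro d S D L hd hD
  obtain ⟨C1, h1, H1⟩ := hL d S D L hd hD
  obtain ⟨C2, h2, H2⟩ := hU d S D L hd hD
  refine ⟨C1 + C2, by positivity, fun u hu hL hl T hT g => ?_⟩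
  have a1 := H1 u hu hL hl T hT g
  have a2 := H2 u hu hL hl T hT g
  have b1 : 0 ≤ C1 / ell u ^ d * (1 + ‖nx T g - T • u‖) := by positivity
  have b2 : 0 ≤ C2 / ell u ^ d * (1 + ‖nx T g - T • u‖) := by positivity
  rw [add_div, add_mul, abs_le]
  constructor <;> linarith

theorem p_H2N (_hFO : S_FO) (_hGRW : S_GRW) (hMARK : S_MARK) (hPEN : S_PEN) (hHOM : S_HOM)
    (hATT : S_ATT) (hAPR : S_APR) (hACC : S_ACC) :
    S_H2N :=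
  have hNB := p_WNB hMARK hPEN hHOM
  H2nA.both
    (p_WLB hMARK hPEN hHOM hACC p_WLEN p_WELL hNB (p_WRNG p_WSH p_WLEN p_WELL))
    (p_WUB hHOM p_WINS p_WSH p_WLEN p_WELL (p_WFILL p_WINS p_WLEN)
      (p_WDIS hHOM hATT hAPR p_WLEN (p_WPASS p_WSH) (p_WATI p_WINS p_WSH) hNB))

end Pool.Agent.P.MP_a0f0ad_al.Fi
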