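import Pool.Agent.P.MP_a0f0ad_al.Fi.W.Iface
import Pool.Agent.P.MP_a0f0ad_al.Fi.W.Fill
import Pool.Agent.P.MP_a0f0ad_al.Fi.Z.Bg
import Pool.Agent.P.MP_a0f0ad_al.Fi.Z.Bp

/-! The steps inside chapter W. -/

namespace Pool.Agent.P.MP_a0f0ad_al.Fi

open Finset MeasureTheory

/-- the vector `v` can be inserted into the word `w` at the cost `c` -/
def Ins {d : ℕ} (S : Finset (G d)) (w : List (G d)) (c : ℝ) (v : Fin d → ℤ) : Prop :=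
  ∃ z : ℕ → Fin d → ℤ, v = ∑ k ∈ range (w.length + 1), sh (ht w k) (z k) ∧
    ∑ k ∈ range (w.length + 1), (len S (⟨z k, 0⟩ : G d) : ℝ) ≤ c

/-- averaged slack of letter number `k` for an arbitrary choice of directions -/
noncomputable def sbg {d : ℕ} (D : LD d) (T : ℝ) (q : Fin d → ℝ) (w : List (G d))
    (up : ℕ → Bool) (k : ℕ) : ℝ :=
  ∫ t in (0 : ℝ)..1, D.slk (up k) (lt w k)
    (ev q 0 (((ht w k : ℝ) + t * ((lt w k).a : ℝ)) / T))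

-- deps:
/-- the calculus of insertions -/
def S_WINS : Prop :=
  ∀ (d : ℕ) (S : Finset (G d)) (w : List (G d)), Sym S → Wd S w →
    Ins S w 0 0 ∧
    (∀ c c' v v', Ins S w c v → Ins S w c' v' → Ins S w (c + c') (v + v')) ∧
    (∀ c c' v, Ins S w c v → c ≤ c' → Ins S w c' v) ∧
    (∀ k ≤ w.length, ∀ z, Ins S w (len S (⟨z, 0⟩ : G d)) (sh (ht w k) z)) ∧
    ∀ c v, Ins S w c v → (len S ((⟨v, 0⟩ : G d) * w.prod) : ℝ) ≤ w.length + c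

-- deps:
/-- size and leading term of a shifted vector -/
def S_WSH : Prop :=
  ∀ (d : ℕ) (L : ℝ), 0 ≤ L → ∃ C : ℝ, 0 < C ∧ ∀ (T B : ℝ) (x : ℤ) (y : Fin d → ℤ), 1 ≤ T →
    |(x : ℝ)| ≤ L * T →
    ((∀ j, |(y j : ℝ)| ≤ B * T ^ (j : ℕ)) → ∀ j, |(sh x y j : ℝ)| ≤ C * B * T ^ (j : ℕ)) ∧
    ((∀ j, |(y j : ℝ)| ≤ B) → ∀ j : Fin d,
      |(sh x y j : ℝ) / T ^ (j : ℕ) - (co y 0 : ℤ) * ((x : ℝ) / T) ^ (j : ℕ)| ≤ C * B / T)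

-- deps:
/-- crude bounds for word length and for letters -/
def S_WLEN : Prop :=
  ∀ (d : ℕ) (S : Finset (G d)), Sym S → ∃ C : ℝ, 1 ≤ C ∧
    (∀ k : ℤ, (len S (⟨0, k⟩ : G d) : ℝ) ≤ C * |(k : ℝ)|) ∧
    (∀ y : Fin d → ℤ, (len S (⟨y, 0⟩ : G d) : ℝ) ≤ C * ∑ j, |(y j : ℝ)|) ∧
    ∀ s ∈ S, |(s.a : ℝ)| ≤ C ∧ ∀ j, |(s.y j : ℝ)| ≤ C

-- deps:
/-- elementary properties of `ell` -/
def S_WELL : Prop :=
  ∀ (d : ℕ) (u : E d), |u.1| ≤ ell u ∧ ell u ≤ max 1 ‖u‖ ∧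
    (ell u = |u.1| ∨ ∃ j : Fin d, 1 ≤ (j : ℕ) ∧ ell u ^ (j : ℕ) = |u.2 j|) ∧
    (∀ (j : Fin d) (s : ℝ), 1 ≤ (j : ℕ) → 0 ≤ s → s ^ (j : ℕ) ≤ |u.2 j| → s ≤ ell u) ∧
    ∀ u' : E d, 1 ≤ d → 2 * max 1 ‖u‖ ^ d * ‖u' - u‖ ≤ ell u ^ d → ell u ≤ 2 * ell u'

-- deps: FO
/-- the accounting identity for an arbitrary choice of directions -/
def S_WSBG : Prop :=
  ∀ (d : ℕ) (S : Finset (G d)) (D : LD d) (L : ℝ), D.Spec S → ∃ C : ℝ, 0 ≤ C ∧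
    ∀ (T : ℝ) (w : List (G d)) (q : Fin d → ℝ) (up : ℕ → Bool), 1 ≤ T → Wd S w →
      (w.length : ℝ) ≤ L * T → |CT T q w| ≤ C * ‖q‖ ∧
      |(w.length : ℝ) - ∑ k ∈ range w.length, sbg D T q w up k - dot q (nx T w.prod).2 +
        CT T q w - T * ∑ k ∈ range w.length,
          ∫ x in ((ht w k : ℝ) / T)..((ht w (k + 1) : ℝ) / T), D.lam (up k) (ev q 0 x)| ≤
        C * ‖q‖ / T

-- deps: WSBG
/-- telescoping over the three phases -/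
def S_WACC : Prop := S_ACC

-- deps: WSH
/-- one monotone pass of the discretised path -/
def S_WPASS : Prop :=
  ∀ (d : ℕ) (S : Finset (G d)) (L B : ℝ) (nE : ℕ), 0 ≤ L → (∀ s ∈ S, |(s.a : ℝ)| ≤ B) →
    ∃ C : ℝ, 0 < C ∧
    ∀ (T δ α τ : ℝ) (σ : ℝ → G d) (X : Finset ℝ) (x0 : ℤ), 1 ≤ T → (δ = 1 ∨ δ = -1) →
      (∀ x, σ x ∈ S ∧ 0 < δ * ((σ x).a : ℝ)) → X.card ≤ nE →
      (∀ x y, (∀ e ∈ X, e ∉ Set.uIcc x y) → σ x = σ y) →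
      (∀ s t, IntervalIntegrable (fun x => (((σ x).a : ℝ))⁻¹) volume s t) →
      (∀ (j : Fin d) s t, IntervalIntegrable
        (fun x => ((σ x).b : ℝ) / ((σ x).a : ℝ) * Vd 0 x j) volume s t) →
      |α| ≤ L → |τ| ≤ L → |(x0 : ℝ) - T * α| ≤ B → δ * ((x0 : ℝ) - T * τ) ≤ 0 →
      ∃ w : List (G d), Wd S w ∧ 0 ≤ δ * ((x0 : ℝ) + w.prod.a - T * τ) ∧
        δ * ((x0 : ℝ) + w.prod.a - T * τ) ≤ B ∧
        (∀ h : ℝ, 0 ≤ h → h ≤ δ * (w.prod.a : ℝ) →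
          ∃ k ≤ w.length, |δ * (ht w k : ℝ) - h| ≤ B) ∧
        (w.length : ℝ) ≤ T * (∫ x in α..τ, (((σ x).a : ℝ))⁻¹) + C ∧
        ∀ j : Fin d, |(sh x0 w.prod.y j : ℝ) / T ^ (j : ℕ) -
          T * ∫ x in α..τ, ((σ x).b : ℝ) / ((σ x).a : ℝ) * Vd 0 x j| ≤ C

-- deps: WINS WSH
/-- insertion of the atoms -/
def S_WATI : Prop :=
  ∀ (d : ℕ) (S : Finset (G d)) (D : LD d) (L B : ℝ), D.Spec S → ∃ C : ℝ, 0 < C ∧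
    ∀ (T : ℝ) (w : List (G d)) (x1 : ℤ) (Z : Finset ℝ) (mu : ℝ → ℝ), 1 ≤ T → Wd S w →
      Z.card ≤ d + 1 →
      (∀ z ∈ Z, |z| ≤ L ∧ |mu z| ≤ L ∧ ∃ k ≤ w.length, |(x1 : ℝ) + ht w k - T * z| ≤ B) →
      ∃ v : Fin d → ℤ, Ins S w (T * (D.Q * ∑ z ∈ Z, |mu z|)) v ∧
        ∀ j : Fin d, |(sh x1 v j : ℝ) / T ^ (j : ℕ) - T * ∑ z ∈ Z, mu z * Vd 0 z j| ≤ C

-- deps: WINS WLEN
/-- insertion of a small vector along a word that climbs -/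
def S_WFILL : Prop :=
  ∀ (d : ℕ) (S : Finset (G d)) (B : ℝ), 1 ≤ d → Sym S → ∃ C : ℝ, 0 < C ∧
    ∀ (w : List (G d)) (H ρ : ℕ) (r : Fin d → ℤ), Wd S w → 1 ≤ H → 1 ≤ ρ →
      (∀ h : ℕ, h ≤ d * H → ∃ k ≤ w.length, |(ht w k : ℝ) - h| ≤ B) →
      (∀ j, |r j| ≤ ρ * (H : ℤ) ^ (j : ℕ)) → Ins S w (C * ρ) r

-- deps: MARK PEN HOM
/-- the limit length is bounded on bounded sets -/
def S_WNB : Prop :=
  ∀ (d : ℕ) (S : Finset (G d)) (D : LD d) (L : ℝ), D.Spec S → ∃ B : ℝ, 0 < B ∧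
    ∀ u : E d, 0 ≤ u.1 → ‖u‖ ≤ L → D.NN u ≤ B

-- deps: WSH WLEN WELL
/-- a short word to a point near `T u` has a long height range -/
def S_WRNG : Prop :=
  ∀ (d : ℕ) (S : Finset (G d)) (L : ℝ), 1 ≤ d → Sym S → ∃ c : ℝ, 0 < c ∧
    ∀ (u : E d) (T : ℝ) (w : List (G d)) (lo hi : ℝ), 0 ≤ u.1 → ‖u‖ ≤ L → 0 < ell u → 1 ≤ T →
      Wd S w → (w.length : ℝ) ≤ L * T → 1 + ‖nx T w.prod - T • u‖ ≤ c * T * ell u ^ d →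
      (∀ k ≤ w.length, lo ≤ ht w k ∧ (ht w k : ℝ) ≤ hi) →
      c * ell u * T ≤ max hi (T * u.1) - lo

-- deps: MARK PEN HOM ACC WLEN WELL WNB WRNG
/-- the lower bound for word length -/
def S_WLB : Prop :=
  ∀ (d : ℕ) (S : Finset (G d)) (D : LD d) (L : ℝ), 2 ≤ d → D.Spec S → ∃ C : ℝ, 0 < C ∧
    ∀ u : E d, 0 ≤ u.1 → ‖u‖ ≤ L → 0 < ell u → ∀ T : ℝ, 1 ≤ T → ∀ g : G d,
      T * D.NN u ≤ len S g + C / ell u ^ d * (1 + ‖nx T g - T • u‖)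

-- deps: HOM ATT APR WLEN WPASS WATI WNB
/-- discretisation of an almost optimal representation -/
def S_WDIS : Prop :=
  ∀ (d : ℕ) (S : Finset (G d)) (D : LD d) (L : ℝ), 2 ≤ d → D.Spec S →
    ∃ C c : ℝ, 0 < C ∧ 0 < c ∧
    ∀ u : E d, 0 ≤ u.1 → ‖u‖ ≤ L → 0 < ell u → ∀ T : ℝ, 1 ≤ T →
      ∃ (p1 p3 : G d) (w : List (G d)) (v : Fin d → ℤ) (cv : ℝ), Wd S w ∧ Ins S w cv v ∧
        (len S p1 : ℝ) + w.length + cv + len S p3 ≤ T * D.NN u + C ∧ |(p1.a : ℝ)| ≤ C * T ∧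
        (∀ h : ℝ, 0 ≤ h → h ≤ c * T * ell u → ∃ k ≤ w.length, |(ht w k : ℝ) - h| ≤ C) ∧
        ‖nx T (p1 * ((⟨v, 0⟩ : G d) * w.prod) * p3) - T • u‖ ≤ C

-- deps: HOM WINS WSH WLEN WELL WFILL WDIS
/-- the upper bound for word length -/
def S_WUB : Prop :=
  ∀ (d : ℕ) (S : Finset (G d)) (D : LD d) (L : ℝ), 2 ≤ d → D.Spec S → ∃ C : ℝ, 0 < C ∧
    ∀ u : E d, 0 ≤ u.1 → ‖u‖ ≤ L → 0 < ell u → ∀ T : ℝ, 1 ≤ T → ∀ g : G d,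
      (len S g : ℝ) ≤ T * D.NN u + C / ell u ^ d * (1 + ‖nx T g - T • u‖)

-- deps: HOM H2N LIP WELL
/-- the window estimate -/
def S_WFB : Prop := S_FB

end Pool.Agent.P.MP_a0f0ad_al.Fi
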