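import Pool.Agent.P.MP_a0f0ad_al.Fi.W.Iface
import Pool.Agent.P.MP_a0f0ad_al.Fi.Z.Bg

/-! Step LIP of the filiform project. -/

namespace Pool.Agent.P.MP_a0f0ad_al.Fi

open Finset MeasureTheory

namespace LipA

theorem lim {x b A : ℝ} (h : ∀ T : ℝ, 1 ≤ T → T * x ≤ T * b + A) : x ≤ b := by
  by_contra hc
  have h1 : 0 < x - b := by linarith [not_le.1 hc]
  have h2 := h (max 1 ((A + 1) / (x - b))) (le_max_left _ _)
  have h3 : A + 1 ≤ max 1 ((A + 1) / (x - b)) * (x - b) :=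
    (div_le_iff₀ h1).1 (le_max_right _ _)
  nlinarith

end LipA

theorem p_LIP (hH2N : S_H2N) :
    S_LIP := by
  intro d S D L hd hD
  obtain ⟨C, hC, h⟩ := hH2N d S D L hd hD
  refine ⟨C, hC, fun u u' h1 h2 h3 h1' h2' h3' => ?_⟩
  have c1 : 0 ≤ C / ell u ^ d := by positivity
  have c2 : 0 ≤ C / ell u' ^ d := by positivity
  refine LipA.lim (A := 2 * (C / ell u' ^ d) + 2 * (C / ell u ^ d)) fun T hT => ?_
  have T0 : 0 < T := by linarith
  have n1 : ‖nx T (gam T u') - T • u'‖ ≤ 1 := norm_nx_gam hT u'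
  have n2 : ‖nx T (gam T u') - T • u‖ ≤ 1 + T * ‖u' - u‖ := by
    have e : nx T (gam T u') - T • u = nx T (gam T u') - T • u' + T • (u' - u) := by
      rw [smul_sub]; abel
    rw [e]
    refine (norm_add_le _ _).trans (add_le_add n1 ?_)
    rw [norm_smul, Real.norm_of_nonneg T0.le]
  have a1 := (h u h1 h2 h3 T hT (gam T u')).trans
    (mul_le_mul_of_nonneg_left (add_le_add_right n2 1) c1)
  have a2 := (h u' h1' h2' h3' T hT (gam T u')).trans
    (mul_le_mul_of_nonneg_left (add_le_add_right n1 1) c2)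
  rw [← abs_of_pos T0, ← abs_mul, abs_of_pos T0]
  rw [abs_le] at a1 a2 ⊢
  constructor <;> nlinarith [a1.1, a1.2, a2.1, a2.2]

end Pool.Agent.P.MP_a0f0ad_al.Fi
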