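import Pool.Agent.P.MP_a0f0ad_al.Fi.W.Iface2
import Pool.Agent.P.MP_a0f0ad_al.Fi.V.Iface
import Pool.Agent.P.MP_a0f0ad_al.Fi.Z.Bl

/-! Step WNB of the filiform project. -/

namespace Pool.Agent.P.MP_a0f0ad_al.Fi

open Finset MeasureTheory

namespace WnbA

theorem int_le (f : ℝ → ℝ) (a b m M C : ℝ) (hC : 0 ≤ C) (h1 : m ≤ a) (h2 : a ≤ b) (h3 : b ≤ M)
    (hf : ∀ x ∈ Set.Icc m M, |f x| ≤ C) : ∫ x in a..b, f x ≤ C * (M - m) := by
  have h := intervalIntegral.norm_integral_le_of_norm_le_const (a := a) (b := b) (C := C) (f := f)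
    (fun x hx => by
      rw [Set.uIoc_of_le h2] at hx
      exact hf x ⟨by linarith [hx.1], by linarith [hx.2]⟩)
  rw [Real.norm_eq_abs, abs_of_nonneg (sub_nonneg.2 h2)] at h
  have h4 : C * (b - a) ≤ C * (M - m) := mul_le_mul_of_nonneg_left (by linarith) hC
  linarith [le_abs_self (∫ x in a..b, f x)]

end WnbA

theorem p_WNB (hMARK : S_MARK) (hPEN : S_PEN) (hHOM : S_HOM) :
    S_WNB := by
  intro d S D L h
  obtain ⟨C0, hC0, -, -, -, -, hlp, -⟩ := h.exists_bound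
  obtain ⟨C, hC, hM⟩ := hMARK d (|L| + 1)
  have hQ := h.Qpos
  have hL := abs_nonneg L
  refine ⟨d * (C * D.Q) * |L| + 3 * (C0 * (|L| + 1)), by positivity, fun u hu hn => ?_⟩
  have hu1 : u.1 ≤ |L| :=
    (le_abs_self _).trans ((norm_fst_le u).trans (hn.trans (le_abs_self L)))
  have hu2 : ‖u.2‖ ≤ |L| := (norm_snd_le u).trans (hn.trans (le_abs_self L))
  have hlt : (-1 : ℝ) < |L| := by linarith
  obtain ⟨q, hq, he⟩ := (hPEN d S D h (-1) |L| u (by norm_num) hu hu1 hlt).2 0 0 le_rfl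
  simp only [zero_smul, sub_zero, Prod.mk.eta] at he
  have h1 := ((hHOM d S D h).2.2.1 u (-1) |L| (by norm_num) hu hu1 hlt).1
  have h2 := (hM q (-1) |L| D.Q hlt (by linarith) (by linarith) hq).1
  have h3 : (1 : ℝ) ≤ (|L| - -1) ^ d := one_le_pow₀ (by linarith)
  have h4 : ‖q‖ ≤ C * D.Q := (le_mul_of_one_le_right (norm_nonneg q) h3).trans h2
  have h5 : dot q u.2 ≤ d * (C * D.Q) * |L| := by
    refine (le_abs_self _).trans ((abs_dot_le q u.2).trans ?_)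
    gcongr
  have hp : ∀ x ∈ Set.Icc (-1 : ℝ) |L|, |D.lp (ev q 0 x)| ≤ C0 := fun x hx =>
    hlp _ (by linarith [hq x hx])
  have hn' : ∀ x ∈ Set.Icc (-1 : ℝ) |L|, |D.lp (-ev q 0 x)| ≤ C0 := fun x hx =>
    hlp _ (by rw [abs_neg]; linarith [hq x hx])
  have i1 := WnbA.int_le (fun x => D.lp (ev q 0 x)) (-1) |L| (-1) |L| C0 (by linarith) le_rfl
    hlt.le le_rfl hp
  have i2 := WnbA.int_le (fun x => D.lp (-ev q 0 x)) (-1) 0 (-1) |L| C0 (by linarith) le_rfl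
    (by norm_num) hL hn'
  have i3 := WnbA.int_le (fun x => D.lp (-ev q 0 x)) u.1 |L| (-1) |L| C0 (by linarith)
    (by linarith) hu1 le_rfl hn'
  rw [← he] at h1
  unfold LD.Bf at h1
  have e : |L| - -1 = |L| + 1 := by ring
  rw [e] at i1 i2 i3
  linarith

end Pool.Agent.P.MP_a0f0ad_al.Fi
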