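import Pool.Agent.P.MP_a0f0ad_al.Fi.W.Iface2
import Pool.Agent.P.MP_a0f0ad_al.Fi.R.Iface
import Pool.Agent.P.MP_a0f0ad_al.Fi.Z.Bl

/-! Step WSBG of the filiform project. -/

namespace Pool.Agent.P.MP_a0f0ad_al.Fi

open Finset MeasureTheory

namespace WsbgA

variable {d : ℕ}

theorem chg (f : ℝ → ℝ) (h a : ℝ) {T : ℝ} (hT : T ≠ 0) :
    a * ∫ t in (0 : ℝ)..1, f ((h + t * a) / T) = T * ∫ x in (h / T)..((h + a) / T), f x := by
  have e := intervalIntegral.mul_integral_comp_add_mul (f := f) (a := 0) (b := 1) (a / T) (h / T)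
  have e1 : ∀ t, (h + t * a) / T = h / T + a / T * t := fun t => by ring
  rw [mul_zero, add_zero, mul_one, ← add_div] at e
  simp only [e1]
  rw [← e]
  field_simp

theorem midp (q : Fin d → ℝ) (h a T B : ℝ)
    (hB : ∀ t ∈ Set.uIoc (0 : ℝ) 1, |ev q 0 ((h + t * a) / T) - ev q 0 ((h + a / 2) / T) -
      ((h + t * a) / T - (h + a / 2) / T) * ev q 1 ((h + a / 2) / T)| ≤ B) :
    |(∫ t in (0 : ℝ)..1, ev q 0 ((h + t * a) / T)) - ev q 0 ((h + a / 2) / T)| ≤ B := by
  have e := intervalIntegral.norm_integral_le_of_norm_le_const (a := 0) (b := 1) (C := B)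
    (f := fun t => ev q 0 ((h + t * a) / T) - ev q 0 ((h + a / 2) / T) -
      ((h + t * a) / T - (h + a / 2) / T) * ev q 1 ((h + a / 2) / T)) hB
  have e1 : ∀ t, ((h + t * a) / T - (h + a / 2) / T) * ev q 1 ((h + a / 2) / T) =
      (a / T * ev q 1 ((h + a / 2) / T)) * t - a / T * ev q 1 ((h + a / 2) / T) / 2 :=
    fun t => by ring
  simp only [e1] at e
  rw [intervalIntegral.integral_sub (Continuous.intervalIntegrable (by fun_prop) _ _)
      (Continuous.intervalIntegrable (by fun_prop) _ _),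
    intervalIntegral.integral_sub (Continuous.intervalIntegrable (by fun_prop) _ _)
      (Continuous.intervalIntegrable (by fun_prop) _ _),
    intervalIntegral.integral_sub (Continuous.intervalIntegrable (by fun_prop) _ _)
      (Continuous.intervalIntegrable (by fun_prop) _ _),
    intervalIntegral.integral_const_mul, integral_id] at e
  simp only [intervalIntegral.integral_const, sub_zero, one_smul, abs_one, mul_one,
    Real.norm_eq_abs] at e
  refine le_trans (le_of_eq ?_) e
  congr 1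
  ring

theorem sbg_eq {S : Finset (G d)} {D : LD d} (hD : D.Spec S) {T : ℝ} (hT : T ≠ 0)
    (q : Fin d → ℝ) (w : List (G d)) (up : ℕ → Bool) (k : ℕ) :
    sbg D T q w up k = 1 - ((lt w k).b : ℝ) *
      (∫ t in (0 : ℝ)..1, ev q 0 (((ht w k : ℝ) + t * ((lt w k).a : ℝ)) / T)) -
      T * ∫ x in ((ht w k : ℝ) / T)..((ht w (k + 1) : ℝ) / T), D.lam (up k) (ev q 0 x) := by
  have hc := hD.continuous_lam (up k)
  rw [ht_succ, Int.cast_add, ← chg (fun x => D.lam (up k) (ev q 0 x)) _ _ hT]
  unfold sbg LD.slk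
  rw [intervalIntegral.integral_sub (Continuous.intervalIntegrable (by fun_prop) _ _)
      (Continuous.intervalIntegrable (by fun_prop) _ _),
    intervalIntegral.integral_sub (Continuous.intervalIntegrable (by fun_prop) _ _)
      (Continuous.intervalIntegrable (by fun_prop) _ _),
    intervalIntegral.integral_const_mul, intervalIntegral.integral_const_mul]
  simp

theorem sum_le {n : ℕ} {f : ℕ → ℝ} {B : ℝ} (h : ∀ k < n, |f k| ≤ B) :
    |∑ k ∈ range n, f k| ≤ n * B := by
  refine (Finset.abs_sum_le_sum_abs _ _).trans ?_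
  have := Finset.sum_le_card_nsmul (range n) (fun k => |f k|) B fun k hk => h k (mem_range.1 hk)
  simpa using this

end WsbgA

open WsbgA

theorem p_WSBG (hFO : S_FO) :
    S_WSBG := by
  intro d S D L hD
  obtain ⟨C0, hC0, -, -, -, -, -, hS, -⟩ := hD.exists_bound
  obtain ⟨CV, hCV, hV⟩ := exists_Vd_bound d (C0 * (|L| + 1))
  obtain ⟨CY, hCY, hY⟩ := exists_Vd_taylor d (C0 * (|L| + 1))
  obtain ⟨CF, hF⟩ := hFO d S (C0 * (|L| + 1))
  have hL := abs_nonneg L
  refine ⟨|L| * (C0 * CV) + |L| * (C0 * (d * CY * C0 ^ 2)) + d * |CF| * |L|, by positivity,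
    fun T w q up hT hw hl => ?_⟩
  have T0 : 0 < T := by linarith
  have hq := norm_nonneg q
  have hl' : (w.length : ℝ) ≤ |L| * T := hl.trans (by gcongr; exact le_abs_self L)
  have hht : ∀ k ≤ w.length, |(ht w k : ℝ)| ≤ C0 * (|L| * T) := by
    intro k hk
    rw [ht_eq_sum, Int.cast_sum]
    refine (sum_le (B := C0) fun l hl => (hS _ (hw.lt_mem (by omega))).1).trans ?_
    have : (k : ℝ) ≤ w.length := by exact_mod_cast hk
    rw [mul_comm]
    gcongr
    linarith
  have hpt : ∀ k < w.length, ∀ t : ℝ, |t| ≤ 1 →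
      |((ht w k : ℝ) + t * ((lt w k).a : ℝ)) / T| ≤ C0 * (|L| + 1) := by
    intro k hk t ht1
    have h1 := hht k hk.le
    have h2 := (hS _ (hw.lt_mem hk)).1
    have h3 : |t * ((lt w k).a : ℝ)| ≤ 1 * C0 := by
      rw [abs_mul]
      gcongr
    rw [abs_div, abs_of_pos T0, div_le_iff₀ T0]
    have h4 := abs_add_le (ht w k : ℝ) (t * ((lt w k).a : ℝ))
    nlinarith
  have hmid : ∀ k < w.length, |mid T w k| ≤ C0 * (|L| + 1) := by
    intro k hk
    have := hpt k hk (1 / 2) (by rw [abs_of_pos] <;> norm_num)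
    rwa [one_div, inv_mul_eq_div] at this
  have h1 : |CT T q w| ≤ |L| * (C0 * CV) * ‖q‖ := by
    refine (sum_le (B := C0 * (CV * ‖q‖) / T) fun k hk => ?_).trans ?_
    · rw [abs_div, abs_mul, abs_of_pos T0]
      gcongr
      · exact (hS _ (hw.lt_mem hk)).2.2
      · exact (hV 1 _ (hmid k hk)).2 q
    · refine (mul_le_mul_of_nonneg_right hl' (by positivity)).trans (le_of_eq ?_)
      field_simp
  refine ⟨h1.trans ?_, ?_⟩
  · have : 0 ≤ |L| * (C0 * (d * CY * C0 ^ 2)) + d * |CF| * |L| := by positivity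
    gcongr
    linarith
  have h2 : |∑ k ∈ range w.length, (1 - sbg D T q w up k - ((lt w k).b : ℝ) * ev q 0 (mid T w k) -
      T * ∫ x in ((ht w k : ℝ) / T)..((ht w (k + 1) : ℝ) / T), D.lam (up k) (ev q 0 x))| ≤
      |L| * (C0 * (d * CY * C0 ^ 2)) * ‖q‖ / T := by
    refine (sum_le (B := C0 * (d * ‖q‖ * (CY * (C0 / T) ^ 2))) fun k hk => ?_).trans ?_
    · have e := midp q (ht w k) ((lt w k).a) T (d * ‖q‖ * (CY * (C0 / T) ^ 2)) fun t ht1 => by
        rw [Set.uIoc_of_le zero_le_one] at ht1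
        have a1 : |t| ≤ 1 := abs_le.2 ⟨by linarith [ht1.1], ht1.2⟩
        have a2 := (hY 0 _ _ (hmid k hk) (hpt k hk t a1)).2.1
        have a3 : |((ht w k : ℝ) + t * ((lt w k).a : ℝ)) / T - mid T w k| ≤ C0 / T := by
          have : ((ht w k : ℝ) + t * ((lt w k).a : ℝ)) / T - mid T w k =
              (t - 1 / 2) * ((lt w k).a : ℝ) / T := by
            unfold mid
            ring
          rw [this, abs_div, abs_of_pos T0, abs_mul, ← one_mul C0]
          gcongr
          · exact abs_le.2 ⟨by linarith [ht1.1], by linarith [ht1.2]⟩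
          · exact (hS _ (hw.lt_mem hk)).1
        unfold ev
        rw [← dot_smul_right, ← dot_sub_right, ← dot_sub_right]
        refine (abs_dot_le _ _).trans ?_
        gcongr
        refine a2.trans ?_
        gcongr
      rw [sbg_eq hD T0.ne']
      refine le_trans (le_of_eq ?_) (mul_le_mul (hS _ (hw.lt_mem hk)).2.1 e (abs_nonneg _)
        (by linarith))
      rw [← abs_mul]
      congr 1
      unfold mid
      ring
    · refine (mul_le_mul_of_nonneg_right hl' (by positivity)).trans (le_of_eq ?_)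
      field_simp
  have h3 : |dot q (nx T w.prod).2 - ∑ k ∈ range w.length, ((lt w k).b : ℝ) * ev q 0 (mid T w k) -
      CT T q w| ≤ d * |CF| * |L| * ‖q‖ / T := by
    have e := hF T w hT hw fun k hk => (hht k hk).trans (by nlinarith)
    have e1 := abs_dot_le q ((nx T w.prod).2 - ∑ k ∈ range w.length,
      (((lt w k).b : ℝ) • Vd 0 (mid T w k) + ((lt w k).ct / T) • Vd 1 (mid T w k)))
    have e2 : CF * w.length / T ^ 2 ≤ |CF| * (|L| * T) / T ^ 2 := by
      gcongr
      exact le_abs_self CF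
    refine le_trans (le_of_eq ?_) (e1.trans ((mul_le_mul_of_nonneg_left (e.trans e2)
      (by positivity)).trans (le_of_eq (by field_simp))))
    rw [dot_sub_right, dot_sum_right, sub_sub, CT, ← Finset.sum_add_distrib]
    congr 2
    refine Finset.sum_congr rfl fun k _ => ?_
    rw [dot_add_right, dot_smul_right, dot_smul_right]
    unfold ev
    ring
  simp only [Finset.sum_sub_distrib, Finset.sum_const, card_range, nsmul_eq_mul, mul_one,
    ← Finset.mul_sum] at h2
  have h4 : 0 ≤ |L| * (C0 * CV) * ‖q‖ / T := by positivity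
  rw [add_mul, add_mul, add_div, add_div]
  rw [abs_le] at h2 h3 ⊢
  constructor <;> linarith [h2.1, h2.2, h3.1, h3.2]

end Pool.Agent.P.MP_a0f0ad_al.Fi
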